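import Pool.Agent.KTR55.Defs

/-!
# Circuits with oracle gates: the influence of changes of the oracle
-/

set_option autoImplicit false

namespace Pool.Agent.KTR55

open N68a2faeb N793a5b8e N487b59b3

/-- The question of a gate. -/
def Gate.quest (v : List Bool) : Gate → Finset (List Bool)
  | .oracle l => {l.map fun i => v.getD i false}
  | _ => ∅

/-- The questions of a list of gates. -/
def quest (X : List Bool → Bool) (r : List Bool) : List Gate → List Bool → Finset (List Bool)
  | [], _ => ∅
  | g :: gs, v => g.quest v ∪ quest X r gs (v ++ [g.eval X r v])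

theorem Gate.card_quest (v : List Bool) (g : Gate) : (g.quest v).card ≤ 1 := by
  cases g <;> simp [Gate.quest]

theorem card_quest (X : List Bool → Bool) (r : List Bool) (gs : List Gate) :
    ∀ v, (quest X r gs v).card ≤ gs.length := by
  induction gs with
  | nil => intro v; simp [quest]
  | cons g gs ih =>
    intro v
    rw [quest, List.length_cons]
    refine (Finset.card_union_le _ _).trans ?_
    have h1 := Gate.card_quest v g
    have h2 := ih (v ++ [g.eval X r v])
    omega

theorem Gate.eval_congr {X X' : List Bool → Bool} {r v : List Bool} {g : Gate}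
    (h : ∀ y ∈ g.quest v, X' y = X y) : g.eval X' r v = g.eval X r v := by
  cases g with
  | input k => rfl
  | nand i j => rfl
  | oracle l => exact h _ (Finset.mem_singleton_self _)

theorem values_congr {X X' : List Bool → Bool} {r : List Bool} (gs : List Gate) :
    ∀ v, (∀ y ∈ quest X r gs v, X' y = X y) → values X' r gs v = values X r gs v := by
  induction gs with
  | nil => intro v _; rfl
  | cons g gs ih =>
    intro v h
    rw [values, values, Gate.eval_congr fun y hy => h y (Finset.mem_union_left _ hy)]
    exact ih _ fun y hy => h y (Finset.mem_union_right _ hy)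

/-- The questions of a circuit. -/
def Circuit.quest (C : Circuit) (X : List Bool → Bool) (r : List Bool) : Finset (List Bool) :=
  KTR55.quest X r C.gates []

theorem Circuit.out_congr {C : Circuit} {X X' : List Bool → Bool} {r : List Bool}
    (h : ∀ y ∈ C.quest X r, X' y = X y) : C.out X' r = C.out X r := by
  unfold Circuit.out
  rw [values_congr C.gates [] h]

open Classical in
/-- The probability of a question. -/
noncomputable def Circuit.weight (C : Circuit) (X : List Bool → Bool) (y : List Bool) : ℝ :=
  ((Finset.univ.filter fun r : Fin C.inputs → Bool => y ∈ C.quest X (List.ofFn r)).card : ℝ) /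
    2 ^ C.inputs

/-- All questions of a circuit. -/
def Circuit.supp (C : Circuit) (X : List Bool → Bool) : Finset (List Bool) :=
  Finset.univ.biUnion fun r : Fin C.inputs → Bool => C.quest X (List.ofFn r)

theorem Circuit.weight_nonneg (C : Circuit) (X : List Bool → Bool) (y : List Bool) :
    0 ≤ C.weight X y := by unfold Circuit.weight; positivity

theorem Circuit.sum_weight (C : Circuit) (X : List Bool → Bool) (F : Finset (List Bool)) :
    ∑ y ∈ F, C.weight X y ≤ C.gates.length := by
  classical
  have h1 : ∑ y ∈ F, (Finset.univ.filter fun r : Fin C.inputs → Bool =>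
      y ∈ C.quest X (List.ofFn r)).card =
      ∑ r : Fin C.inputs → Bool, (F.filter fun y => y ∈ C.quest X (List.ofFn r)).card := by
    simp only [Finset.card_filter]
    exact Finset.sum_comm
  have h2 : ∑ r : Fin C.inputs → Bool, (F.filter fun y => y ∈ C.quest X (List.ofFn r)).card ≤
      2 ^ C.inputs * C.gates.length := by
    refine (Finset.sum_le_sum (g := fun _ => C.gates.length) fun r _ => ?_).trans ?_
    · refine (Finset.card_le_card (t := C.quest X (List.ofFn r)) fun y hy =>
        (Finset.mem_filter.1 hy).2).trans ?_
      exact card_quest X (List.ofFn r) C.gates []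
    · simp
  unfold Circuit.weight
  rw [← Finset.sum_div, div_le_iff₀ (by positivity)]
  have h3 : ((∑ y ∈ F, (Finset.univ.filter fun r : Fin C.inputs → Bool =>
      y ∈ C.quest X (List.ofFn r)).card : ℕ) : ℝ) ≤ ((2 ^ C.inputs * C.gates.length : ℕ) : ℝ) :=
    Nat.cast_le.2 (h1.le.trans h2)
  push_cast at h3
  linarith

/-- The change of the output distribution. -/
theorem Circuit.prob_change (C : Circuit) {X X' : List Bool → Bool} {F : Finset (List Bool)}
    (hF : C.supp X ⊆ F) (T : Set (List Bool)) :
    |C.prob X' T - C.prob X T| ≤ ∑ y ∈ F.filter (fun y => X' y ≠ X y), C.weight X y := by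
  classical
  set Ch := Finset.univ.filter fun r : Fin C.inputs → Bool =>
    C.out X' (List.ofFn r) ≠ C.out X (List.ofFn r) with hCh
  have h1 : (Ch.card : ℝ) ≤ ∑ y ∈ F.filter (fun y => X' y ≠ X y),
      ((Finset.univ.filter fun r : Fin C.inputs → Bool =>
        y ∈ C.quest X (List.ofFn r)).card : ℝ) := by
    have h2 : Ch ⊆ (F.filter (fun y => X' y ≠ X y)).biUnion fun y =>
        Finset.univ.filter fun r : Fin C.inputs → Bool => y ∈ C.quest X (List.ofFn r) := by
      intro r hr
      have h3 := (Finset.mem_filter.1 hr).2
      by_contra hcon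
      refine h3 (Circuit.out_congr fun y hy => ?_)
      by_contra hne
      refine hcon (Finset.mem_biUnion.2 ⟨y, Finset.mem_filter.2 ⟨hF ?_, hne⟩,
        Finset.mem_filter.2 ⟨Finset.mem_univ _, hy⟩⟩)
      exact Finset.mem_biUnion.2 ⟨r, Finset.mem_univ _, hy⟩
    have h3 := (Finset.card_le_card h2).trans Finset.card_biUnion_le
    exact_mod_cast h3
  have h2 : ∀ (Y Y' : List Bool → Bool), (∀ r : Fin C.inputs → Bool,
      C.out Y (List.ofFn r) ≠ C.out Y' (List.ofFn r) → r ∈ Ch) →
      (((Finset.univ.filter fun r : Fin C.inputs → Bool => C.out Y (List.ofFn r) ∈ T).card : ℝ) ≤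
      (Finset.univ.filter fun r : Fin C.inputs → Bool => C.out Y' (List.ofFn r) ∈ T).card +
        Ch.card) := by
    intro Y Y' hY
    have h3 : (Finset.univ.filter fun r : Fin C.inputs → Bool => C.out Y (List.ofFn r) ∈ T) ⊆
        (Finset.univ.filter fun r : Fin C.inputs → Bool => C.out Y' (List.ofFn r) ∈ T) ∪ Ch := by
      intro r hr
      rw [Finset.mem_union]
      by_cases hne : C.out Y (List.ofFn r) = C.out Y' (List.ofFn r)
      · left
        have h4 := (Finset.mem_filter.1 hr).2
        exact Finset.mem_filter.2 ⟨Finset.mem_univ _, hne ▸ h4⟩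
      · right
        exact hY r hne
    exact_mod_cast (Finset.card_le_card h3).trans (Finset.card_union_le _ _)
  have h3 := h2 X' X fun r hr => Finset.mem_filter.2 ⟨Finset.mem_univ _, hr⟩
  have h4 := h2 X X' fun r hr => Finset.mem_filter.2 ⟨Finset.mem_univ _, hr.symm⟩
  unfold Circuit.prob Circuit.weight
  rw [← Finset.sum_div, ← sub_div, abs_div, abs_of_pos (by positivity : (0 : ℝ) < 2 ^ C.inputs)]
  refine div_le_div_of_nonneg_right ?_ (by positivity)
  rw [abs_le]
  constructor <;> linarith

theorem Circuit.prob_nonneg (C : Circuit) (X : List Bool → Bool) (T : Set (List Bool)) :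
    0 ≤ C.prob X T := by unfold Circuit.prob; positivity

theorem Circuit.prob_le_one (C : Circuit) (X : List Bool → Bool) (T : Set (List Bool)) :
    C.prob X T ≤ 1 := by
  classical
  unfold Circuit.prob
  rw [div_le_one (by positivity)]
  have h : (Finset.univ.filter fun r : Fin C.inputs → Bool =>
      C.out X (List.ofFn r) ∈ T).card ≤ 2 ^ C.inputs :=
    (Finset.card_filter_le _ _).trans (by simp)
  exact_mod_cast h

theorem bdd_dist (X : List Bool → Bool) (C D : Circuit) :
    BddAbove (Set.range fun T : Set (List Bool) => |C.prob X T - D.prob X T|) := by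
  refine ⟨1, ?_⟩
  rintro _ ⟨T, rfl⟩
  have h1 := C.prob_nonneg X T
  have h2 := C.prob_le_one X T
  have h3 := D.prob_nonneg X T
  have h4 := D.prob_le_one X T
  beta_reduce
  rw [abs_le]
  constructor <;> linarith

theorem dist_change_le (C D : Circuit) {X X' : List Bool → Bool} {e : ℝ}
    (h : ∀ T, |C.prob X' T - C.prob X T| + |D.prob X' T - D.prob X T| ≤ e) :
    dist X' C D ≤ dist X C D + e := by
  refine ciSup_le fun T => ?_
  have h1 := le_ciSup (bdd_dist X C D) T
  have h2 := h T
  beta_reduce at h1
  have h3 : C.prob X' T - D.prob X' T =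
      (C.prob X T - D.prob X T) + ((C.prob X' T - C.prob X T) - (D.prob X' T - D.prob X T)) := by
    ring
  rw [h3]
  refine (abs_add_le _ _).trans (add_le_add h1 ((abs_sub _ _).trans h2))

/-- The change of the statistical distance. -/
theorem dist_change (C D : Circuit) {X X' : List Bool → Bool} {F : Finset (List Bool)}
    (hC : C.supp X ⊆ F) (hD : D.supp X ⊆ F) :
    |dist X' C D - dist X C D| ≤
      ∑ y ∈ F.filter (fun y => X' y ≠ X y), (C.weight X y + D.weight X y) := by
  rw [Finset.sum_add_distrib]
  have h1 : ∀ T, |C.prob X' T - C.prob X T| + |D.prob X' T - D.prob X T| ≤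
      ∑ y ∈ F.filter (fun y => X' y ≠ X y), C.weight X y +
        ∑ y ∈ F.filter (fun y => X' y ≠ X y), D.weight X y := fun T =>
    add_le_add (C.prob_change hC T) (D.prob_change hD T)
  have h2 := dist_change_le C D h1
  have h3 := dist_change_le C D (X := X') (X' := X) (e :=
    ∑ y ∈ F.filter (fun y => X' y ≠ X y), C.weight X y +
        ∑ y ∈ F.filter (fun y => X' y ≠ X y), D.weight X y) fun T => by
      rw [abs_sub_comm, abs_sub_comm (D.prob X T)]
      exact h1 T
  rw [abs_le]
  constructor <;> linarith

/-! ### Lengths of codes -/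

theorem gates_length_le (C : Circuit) : C.gates.length ≤ (bitEncode C : List Bool).length := by
  change C.gates.length ≤ (delimit (bitEncode C.inputs) ++
    (delimit (((C.gates.map bitEncode).map delimit).flatten) ++ bitEncode C.outputs)).length
  have h := length_le_length_flatten_delimit (C.gates.map bitEncode)
  rw [List.length_map] at h
  simp only [List.length_append, length_delimit]
  omega

theorem gates_length_le_fst (C D : Circuit) :
    C.gates.length ≤ (bitEncode (C, D) : List Bool).length := by
  change C.gates.length ≤ (delimit (bitEncode C) ++ bitEncode D).length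
  have h := gates_length_le C
  simp only [List.length_append, length_delimit]
  omega

theorem gates_length_le_snd (C D : Circuit) :
    D.gates.length ≤ (bitEncode (C, D) : List Bool).length := by
  change D.gates.length ≤ (delimit (bitEncode C) ++ bitEncode D).length
  have h := gates_length_le D
  simp only [List.length_append, length_delimit]
  omega

end Pool.Agent.KTR55
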