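import Pool.Agent.TFR21.Resample

/-!
# The probabilistic core: strings planted in a random oracle
-/

set_option autoImplicit false

namespace Pool.Agent.KTR55

open MeasureTheory ProbabilityTheory Set Pool.Agent.ROr14 Pool.Agent.TFR21

/-- The oracle set to `false` on `w`. -/
def ov (w : Finset (List Bool)) (R : List Bool → Bool) : List Bool → Bool :=
  fun z => if z ∈ w then false else R z

/-- The oracle set to `false` outside `w`. -/
def on (w : Finset (List Bool)) (R : List Bool → Bool) : List Bool → Bool :=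
  fun z => if z ∈ w then R z else false

/-- Independence of the coordinates in and outside a finite set. -/
theorem indep_off (w : Finset (List Bool)) {V C : Set (List Bool → Bool)}
    (hV : MeasurableSet V) (hVd : ∀ R R', (∀ z ∉ w, R z = R' z) → R ∈ V → R' ∈ V)
    (hC : Dep w C) : randomOracle (V ∩ C) = randomOracle V * randomOracle C := by
  have h1 : iIndep (fun z : List Bool => MeasurableSpace.comap (fun R : List Bool → Bool => R z)
      inferInstance) randomOracle := iIndepFun_eval
  have hle : ∀ z : List Bool, MeasurableSpace.comap (fun R : List Bool → Bool => R z)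
      inferInstance ≤ (MeasurableSpace.pi : MeasurableSpace (List Bool → Bool)) := fun z =>
    (measurable_pi_apply z).comap_le
  have hdis : Disjoint ((w : Set (List Bool))ᶜ) (w : Set (List Bool)) := disjoint_compl_left
  have h2 := indep_iSup_of_disjoint hle h1 hdis
  refine (Indep_iff _ _ _).1 h2 V C ?_ ?_
  · have h3 : V = ov w ⁻¹' V := by
      ext R
      constructor
      · intro h
        exact hVd R (ov w R) (fun z hz => by simp [ov, hz]) h
      · intro h
        exact hVd (ov w R) R (fun z hz => by simp [ov, hz]) h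
    rw [h3]
    have h4 : Measurable[⨆ z ∈ ((w : Set (List Bool))ᶜ), MeasurableSpace.comap
        (fun R : List Bool → Bool => R z) inferInstance] (ov w) := by
      refine @measurable_pi_lambda _ _ _ (_) _ _ fun z => ?_
      by_cases hz : z ∈ w
      · have : (fun R : List Bool → Bool => ov w R z) = fun _ => false := by
          funext R
          simp [ov, hz]
        rw [this]
        exact @measurable_const _ _ (_) _ _
      · have : (fun R : List Bool → Bool => ov w R z) = fun R => R z := by
          funext R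
          simp [ov, hz]
        rw [this]
        refine Measurable.mono (comap_measurable _) ?_ le_rfl
        exact le_iSup₂_of_le (f := fun (z : List Bool) (_ : z ∈ ((w : Set (List Bool))ᶜ)) =>
          MeasurableSpace.comap (fun R : List Bool → Bool => R z) inferInstance) z hz le_rfl
    exact h4 hV
  · have h3 : C = on w ⁻¹' C := by
      ext R
      constructor
      · intro h
        exact hC R (on w R) (fun z hz => by simp [on, hz]) h
      · intro h
        exact hC (on w R) R (fun z hz => by simp [on, hz]) h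
    rw [h3]
    have h4 : Measurable[⨆ z ∈ (w : Set (List Bool)), MeasurableSpace.comap
        (fun R : List Bool → Bool => R z) inferInstance] (on w) := by
      refine @measurable_pi_lambda _ _ _ (_) _ _ fun z => ?_
      by_cases hz : z ∈ w
      · have : (fun R : List Bool → Bool => on w R z) = fun R => R z := by
          funext R
          simp [on, hz]
        rw [this]
        refine Measurable.mono (comap_measurable _) ?_ le_rfl
        exact le_iSup₂_of_le (f := fun (z : List Bool) (_ : z ∈ (w : Set (List Bool))) =>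
          MeasurableSpace.comap (fun R : List Bool → Bool => R z) inferInstance) z hz le_rfl
      · have : (fun R : List Bool → Bool => on w R z) = fun _ => false := by
          funext R
          simp [on, hz]
        rw [this]
        exact @measurable_const _ _ (_) _ _
    exact h4 hC.measurableSet

/-- Whatever the values of the oracle on `w` are, `Bad` does not hold, by finitely many values of
the oracle outside `w`. -/
def Stable {α : Type} (w : Finset (List Bool)) (Bad : (List Bool → Bool) → α → Prop)
    (X : List Bool → Bool) (x : α) : Prop :=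
  ∃ F : Finset (List Bool), Disjoint F w ∧ ∀ X' : List Bool → Bool, (∀ y ∈ F, X' y = X y) →
    ¬ Bad X' x

variable {α : Type} {w : Finset (List Bool)} {Bad : (List Bool → Bool) → α → Prop}

theorem Stable.not_bad {X : List Bool → Bool} {x : α} (h : Stable w Bad X x) : ¬ Bad X x := by
  obtain ⟨F, _, h⟩ := h
  exact h X fun _ _ => rfl

theorem Stable.congr {X X' : List Bool → Bool} {x : α} (h : Stable w Bad X x)
    (hX : ∀ z ∉ w, X z = X' z) : Stable w Bad X' x := by
  obtain ⟨F, hF, h⟩ := h
  refine ⟨F, hF, fun X'' hX'' => h X'' fun y hy => ?_⟩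
  rw [hX'' y hy, hX y (Finset.disjoint_left.1 hF hy)]

theorem measurableSet_stable (x : α) : MeasurableSet {X | Stable w Bad X x} := by
  refine IsOpen.measurableSet ?_
  rw [isOpen_iff_forall_mem_open]
  rintro X ⟨F, hF, h⟩
  refine ⟨⋂ y ∈ F, {X' : List Bool → Bool | X' y = X y}, ?_, ?_, ?_⟩
  · intro X' hX'
    simp only [mem_iInter] at hX'
    exact ⟨F, hF, fun X'' hX'' => h X'' fun y hy => by rw [hX'' y hy]; exact hX' y hy⟩
  · refine isOpen_biInter_finset fun y _ => ?_
    have h1 : Continuous fun X' : List Bool → Bool => X' y := continuous_apply y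
    exact IsOpen.preimage (t := {b : Bool | b = X y}) h1 (isOpen_discrete _)
  · simp

section block

variable {τ : Type} [Fintype τ] [DecidableEq τ] [Fintype α] [DecidableEq α]

/-- At most `K` elements are not stable, and the elements of `u` are not stable. -/
def vset (w : Finset (List Bool)) (Bad : (List Bool → Bool) → α → Prop) (K : ℕ) (u : τ → α) :
    Set (List Bool → Bool) :=
  {X | (∃ B : Finset α, B.card ≤ K ∧ ∀ x ∉ B, Stable w Bad X x) ∧ ∀ t, ¬ Stable w Bad X (u t)}

omit [Fintype τ] [DecidableEq τ] [Fintype α] [DecidableEq α] in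
theorem vset_off {K : ℕ} {u : τ → α} {R R' : List Bool → Bool} (h : ∀ z ∉ w, R z = R' z)
    (hR : R ∈ vset w Bad K u) : R' ∈ vset w Bad K u := by
  obtain ⟨⟨B, hB, h1⟩, h2⟩ := hR
  refine ⟨⟨B, hB, fun x hx => (h1 x hx).congr h⟩, fun t ht => h2 t (ht.congr fun z hz => ?_)⟩
  exact (h z hz).symm

omit [DecidableEq τ] in
theorem measurableSet_vset (K : ℕ) (u : τ → α) : MeasurableSet (vset w Bad K u) := by
  have h1 : vset w Bad K u =
      (⋃ B ∈ (Finset.univ : Finset (Finset α)).filter fun B => B.card ≤ K,
        ⋂ x ∈ (Finset.univ : Finset α).filter fun x => x ∉ B, {X | Stable w Bad X x}) ∩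
      ⋂ t, {X | Stable w Bad X (u t)}ᶜ := by
    ext X
    simp only [vset, mem_ofPred_eq, mem_inter_iff, mem_iUnion, mem_iInter, Finset.mem_filter,
      Finset.mem_univ, true_and, exists_prop, mem_compl_iff]
  rw [h1]
  refine MeasurableSet.inter ?_ (MeasurableSet.iInter fun t => (measurableSet_stable _).compl)
  refine Finset.measurableSet_biUnion _ fun B _ => Finset.measurableSet_biInter _ fun x _ =>
    measurableSet_stable x

open Classical in
/-- For every oracle there are few lists of elements that are not stable. -/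
theorem card_vset (K : ℕ) (X : List Bool → Bool) :
    (Finset.univ.filter fun u : τ → α => X ∈ vset w Bad K u).card ≤ K ^ Fintype.card τ := by
  by_cases h : ∃ B : Finset α, B.card ≤ K ∧ ∀ x ∉ B, Stable w Bad X x
  · obtain ⟨B, hB, hs⟩ := h
    have h1 : (Finset.univ.filter fun u : τ → α => X ∈ vset w Bad K u) ⊆
        Fintype.piFinset fun _ : τ => B := by
      intro u hu
      rw [Finset.mem_filter] at hu
      rw [Fintype.mem_piFinset]
      intro t
      by_contra ht
      exact hu.2.2 t (hs _ ht)
    refine (Finset.card_le_card h1).trans ?_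
    rw [Fintype.card_piFinset, Finset.prod_const, Finset.card_univ]
    exact Nat.pow_le_pow_left hB _
  · have h1 : (Finset.univ.filter fun u : τ → α => X ∈ vset w Bad K u) = ∅ := by
      rw [Finset.filter_eq_empty_iff]
      intro u _ hu
      exact h hu.1
    rw [h1]
    exact Nat.zero_le _

end block

section plant

variable {γ τ : Type} [Fintype γ] [DecidableEq γ] [Fintype τ] [DecidableEq τ] {n : ℕ}

/-- The string planted in the oracle at the place `s`. -/
def pl {ι : Type} (z : ι → Fin n → List Bool) (X : List Bool → Bool) (s : ι) : Fin n → Bool :=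
  fun i => X (z s i)

/-- The coordinates of the strings planted at the places of the group `g`. -/
def blk (z : γ × τ → Fin n → List Bool) (g : γ) : Finset (List Bool) :=
  Finset.univ.image fun p : τ × Fin n => z (g, p.1) p.2

variable {z : γ × τ → Fin n → List Bool}
  (hz : Function.Injective fun p : (γ × τ) × Fin n => z p.1 p.2)

include hz

omit [Fintype γ] [DecidableEq γ] [DecidableEq τ] in
theorem card_blk (g : γ) : (blk z g).card = Fintype.card τ * n := by
  unfold blk
  rw [Finset.card_image_of_injective, Finset.card_univ, Fintype.card_prod, Fintype.card_fin]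
  intro p q h
  have h1 := @hz ((g, p.1), p.2) ((g, q.1), q.2) h
  simp only [Prod.mk.injEq, true_and] at h1
  exact Prod.ext h1.1 h1.2

omit [Fintype γ] [DecidableEq γ] [DecidableEq τ] in
theorem disjoint_blk {g g' : γ} (hg : g ≠ g') : Disjoint (blk z g) (blk z g') := by
  unfold blk
  rw [Finset.disjoint_left]
  intro y h1 h2
  rw [Finset.mem_image] at h1 h2
  obtain ⟨p, _, rfl⟩ := h1
  obtain ⟨q, _, h⟩ := h2
  have h1 := @hz ((g', q.1), q.2) ((g, p.1), p.2) h
  simp only [Prod.mk.injEq] at h1
  exact hg h1.1.1.symm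

omit [Fintype γ] [DecidableEq γ] in
theorem measure_block (Bad : (List Bool → Bool) → (Fin n → Bool) → Prop) (K : ℕ) (g : γ) :
    randomOracle {X | (∃ B : Finset (Fin n → Bool), B.card ≤ K ∧
        ∀ x ∉ B, Stable (blk z g) Bad X x) ∧
      ∀ t, ¬ Stable (blk z g) Bad X (pl z X (g, t))} ≤
    (K : ENNReal) ^ Fintype.card τ * (2⁻¹) ^ (Fintype.card τ * n) := by
  classical
  set w := blk z g with hw
  set bof : (τ → Fin n → Bool) → Finset (List Bool) := fun u =>
    (Finset.univ.filter fun p : τ × Fin n => u p.1 p.2 = true).image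
      fun p => z (g, p.1) p.2 with hbof
  have hsub : {X | (∃ B : Finset (Fin n → Bool), B.card ≤ K ∧ ∀ x ∉ B, Stable w Bad X x) ∧
      ∀ t, ¬ Stable w Bad X (pl z X (g, t))} ⊆
      ⋃ u ∈ (Finset.univ : Finset (τ → Fin n → Bool)), vset w Bad K u ∩ cyl w (bof u) := by
    rintro X ⟨h1, h2⟩
    simp only [mem_iUnion, Finset.mem_univ, exists_true_left]
    refine ⟨fun t => pl z X (g, t), ⟨h1, h2⟩, ?_⟩
    intro y hy
    rw [hw, blk, Finset.mem_image] at hy
    obtain ⟨p, _, rfl⟩ := hy
    symm
    by_cases hX : X (z (g, p.1) p.2) = true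
    · rw [hX, decide_eq_true_iff, hbof]
      exact Finset.mem_image.2 ⟨p, Finset.mem_filter.2 ⟨Finset.mem_univ _, hX⟩, rfl⟩
    · rw [Bool.not_eq_true] at hX
      rw [hX, decide_eq_false_iff_not, hbof]
      intro h
      obtain ⟨q, hq, h⟩ := Finset.mem_image.1 h
      have h3 := @hz ((g, q.1), q.2) ((g, p.1), p.2) h
      simp only [Prod.mk.injEq, true_and] at h3
      have h4 : q = p := Prod.ext h3.1 h3.2
      subst h4
      have h5 : X (z (g, q.1) q.2) = true := (Finset.mem_filter.1 hq).2
      rw [hX] at h5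
      exact Bool.false_ne_true h5
  refine (measure_mono hsub).trans ((measure_biUnion_finset_le _ _).trans ?_)
  have h1 : ∀ u ∈ (Finset.univ : Finset (τ → Fin n → Bool)),
      randomOracle (vset w Bad K u ∩ cyl w (bof u)) =
        randomOracle (vset w Bad K u) * (2⁻¹) ^ (Fintype.card τ * n) := by
    intro u _
    rw [indep_off w (measurableSet_vset K u) (fun R R' h hR => vset_off h hR) (dep_cyl w _),
      measure_cyl, hw, card_blk hz]
  rw [Finset.sum_congr rfl h1, ← Finset.sum_mul]
  refine mul_le_mul_left ?_ _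
  have h2 : ∀ u ∈ (Finset.univ : Finset (τ → Fin n → Bool)), randomOracle (vset w Bad K u) =
      ∫⁻ X, (vset w Bad K u).indicator (fun _ => (1 : ENNReal)) X ∂randomOracle := by
    intro u _
    rw [lintegral_indicator (measurableSet_vset K u)]
    simp
  rw [Finset.sum_congr rfl h2, ← lintegral_finsetSum _
    fun u _ => measurable_const.indicator (measurableSet_vset K u)]
  calc ∫⁻ X, ∑ u ∈ (Finset.univ : Finset (τ → Fin n → Bool)),
        (vset w Bad K u).indicator (fun _ => (1 : ENNReal)) X ∂randomOracle
      ≤ ∫⁻ _, (K : ENNReal) ^ Fintype.card τ ∂randomOracle := by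
        refine lintegral_mono fun X => ?_
        have h3 := card_vset (w := w) (Bad := Bad) (τ := τ) K X
        have h4 : ∑ u ∈ (Finset.univ : Finset (τ → Fin n → Bool)),
            (vset w Bad K u).indicator (fun _ => (1 : ENNReal)) X =
            ((Finset.univ.filter fun u : τ → Fin n → Bool => X ∈ vset w Bad K u).card :
              ENNReal) := by
          rw [Finset.card_filter]
          push_cast
          exact Finset.sum_congr rfl fun u _ => by rw [Set.indicator_apply]
        rw [h4]
        have h5 : ((Finset.univ.filter fun u : τ → Fin n → Bool =>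
          X ∈ vset w Bad K u).card : ENNReal) ≤ ((K ^ Fintype.card τ : ℕ) : ENNReal) :=
          Nat.cast_le.2 h3
        rwa [Nat.cast_pow] at h5
    _ = (K : ENNReal) ^ Fintype.card τ := by simp

end plant

/-- There are weights of total at most `S` such that `P` holds for all oracles which differ
from `X` on coordinates of total weight less than one. -/
def Light (P : (List Bool → Bool) → Prop) (S : ℝ) (X : List Bool → Bool) : Prop :=
  ∃ (F : Finset (List Bool)) (ω : List Bool → ℝ), (∀ y, 0 ≤ ω y) ∧ ∑ y ∈ F, ω y ≤ S ∧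
    ∀ X' : List Bool → Bool, ∑ y ∈ F.filter (fun y => X' y ≠ X y), ω y < 1 → P X'

section core

variable {γ τ : Type} [Fintype γ] [DecidableEq γ] [Fintype τ] [DecidableEq τ] {n : ℕ}
variable {z : γ × τ → Fin n → List Bool}
  (hz : Function.Injective fun p : (γ × τ) × Fin n => z p.1 p.2)

include hz

open Classical in
omit [DecidableEq γ] [DecidableEq τ] in
theorem light_groups {Bad : (List Bool → Bool) → (Fin n → Bool) → Prop} {S : ℝ}
    {X : List Bool → Bool} {x : Fin n → Bool} (h : Light (fun X' => ¬ Bad X' x) S X) :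
    ((Finset.univ.filter fun g => ¬ Stable (blk z g) Bad X x).card : ℝ) ≤ S := by
  obtain ⟨F, ω, h0, hS, h⟩ := h
  set G := Finset.univ.filter fun g => ¬ Stable (blk z g) Bad X x with hG
  have h1 : ∀ g ∈ G, 1 ≤ ∑ y ∈ F.filter (fun y => y ∈ blk z g), ω y := by
    intro g hg
    by_contra hlt
    rw [not_le] at hlt
    refine (Finset.mem_filter.1 hg).2 ⟨F.filter (fun y => y ∉ blk z g), ?_, fun X' hX' =>
      h X' (lt_of_le_of_lt ?_ hlt)⟩
    · rw [Finset.disjoint_left]
      intro y hy
      exact (Finset.mem_filter.1 hy).2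
    · refine Finset.sum_le_sum_of_subset_of_nonneg ?_ fun y _ _ => h0 y
      intro y hy
      rw [Finset.mem_filter] at hy ⊢
      refine ⟨hy.1, ?_⟩
      by_contra hb
      exact hy.2 (hX' y (Finset.mem_filter.2 ⟨hy.1, hb⟩))
  calc (G.card : ℝ) = ∑ g ∈ G, (1 : ℝ) := by simp
    _ ≤ ∑ g ∈ G, ∑ y ∈ F.filter (fun y => y ∈ blk z g), ω y := Finset.sum_le_sum h1
    _ = ∑ y ∈ G.biUnion fun g => F.filter (fun y => y ∈ blk z g), ω y := by
      rw [Finset.sum_biUnion]
      intro g _ g' _ hgg
      refine Finset.disjoint_left.2 fun y hy hy' => ?_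
      exact Finset.disjoint_left.1 (disjoint_blk hz hgg) (Finset.mem_filter.1 hy).2
        (Finset.mem_filter.1 hy').2
    _ ≤ ∑ y ∈ F, ω y := by
      refine Finset.sum_le_sum_of_subset_of_nonneg ?_ fun y _ _ => h0 y
      intro y hy
      obtain ⟨g, _, hy⟩ := Finset.mem_biUnion.1 hy
      exact (Finset.mem_filter.1 hy).1
    _ ≤ S := hS

open Classical in
omit [DecidableEq γ] [DecidableEq τ] in
theorem exists_group {Bad : (List Bool → Bool) → (Fin n → Bool) → Prop} {S : ℝ}
    {X : List Bool → Bool} (hn : 1 ≤ n) (hS : 4 * S ≤ Fintype.card γ) [Nonempty γ]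
    {B : Finset (Fin n → Bool)} (hB : 4 * B.card ≤ 2 ^ n)
    (hx : ∀ x ∉ B, Light (fun X' => ¬ Bad X' x) S X) :
    ∃ g, ∃ B' : Finset (Fin n → Bool), B'.card ≤ 2 ^ (n - 1) ∧
      ∀ x ∉ B', Stable (blk z g) Bad X x := by
  by_contra hcon
  push Not at hcon
  have h1 : ∀ g, 2 ^ n < 4 * ((Finset.univ.filter fun x => x ∉ B).filter fun x =>
      ¬ Stable (blk z g) Bad X x).card := by
    intro g
    by_contra hle
    rw [not_lt] at hle
    obtain ⟨x, hx1, hx2⟩ := hcon g (B ∪ (Finset.univ.filter fun x => x ∉ B).filter fun x =>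
      ¬ Stable (blk z g) Bad X x) (by
        have h2 := Finset.card_union_le B ((Finset.univ.filter fun x => x ∉ B).filter fun x =>
          ¬ Stable (blk z g) Bad X x)
        obtain ⟨m, rfl⟩ : ∃ m, n = m + 1 := ⟨n - 1, by omega⟩
        rw [pow_succ] at hle hB
        rw [Nat.add_sub_cancel]
        omega)
    rw [Finset.mem_union, not_or] at hx1
    refine hx1.2 ?_
    rw [Finset.mem_filter, Finset.mem_filter]
    exact ⟨⟨Finset.mem_univ _, hx1.1⟩, hx2⟩
  have h2 : ∑ g : γ, ((Finset.univ.filter fun x => x ∉ B).filter fun x =>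
      ¬ Stable (blk z g) Bad X x).card =
      ∑ x ∈ Finset.univ.filter fun x => x ∉ B,
        (Finset.univ.filter fun g => ¬ Stable (blk z g) Bad X x).card := by
    simp only [Finset.card_filter]
    exact Finset.sum_comm
  have h3 : (∑ x ∈ Finset.univ.filter fun x => x ∉ B,
      ((Finset.univ.filter fun g => ¬ Stable (blk z g) Bad X x).card : ℝ)) ≤ 2 ^ n * S := by
    have h4 : ∀ x ∈ Finset.univ.filter (fun x => x ∉ B),
        ((Finset.univ.filter fun g => ¬ Stable (blk z g) Bad X x).card : ℝ) ≤ S := fun x hxB =>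
      light_groups hz (hx x (Finset.mem_filter.1 hxB).2)
    refine (Finset.sum_le_sum h4).trans ?_
    rw [Finset.sum_const, nsmul_eq_mul]
    have h5 : 0 ≤ S := by
      by_cases hne : (Finset.univ.filter fun x : Fin n → Bool => x ∉ B).Nonempty
      · obtain ⟨x, hxB⟩ := hne
        exact (Nat.cast_nonneg _).trans (h4 x hxB)
      · exfalso
        rw [Finset.not_nonempty_iff_eq_empty] at hne
        obtain ⟨g⟩ := (inferInstance : Nonempty γ)
        have := h1 g
        rw [hne] at this
        simp at this
    refine mul_le_mul_of_nonneg_right ?_ h5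
    have h6 : (Finset.univ.filter fun x : Fin n → Bool => x ∉ B).card ≤ 2 ^ n := by
      refine (Finset.card_filter_le _ _).trans ?_
      simp
    exact_mod_cast h6
  have h4 : (Fintype.card γ : ℝ) * 2 ^ n < 4 * (2 ^ n * S) := by
    have h5 : ∑ _g : γ, (2 ^ n : ℕ) < ∑ g : γ, 4 * ((Finset.univ.filter fun x => x ∉ B).filter
        fun x => ¬ Stable (blk z g) Bad X x).card :=
      Finset.sum_lt_sum_of_nonempty Finset.univ_nonempty fun g _ => h1 g
    rw [← Finset.mul_sum, h2, Finset.sum_const, Finset.card_univ, smul_eq_mul] at h5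
    have h6 : ((Fintype.card γ * 2 ^ n : ℕ) : ℝ) < ((4 * ∑ x ∈ Finset.univ.filter fun x => x ∉ B,
        (Finset.univ.filter fun g => ¬ Stable (blk z g) Bad X x).card : ℕ) : ℝ) :=
      Nat.cast_lt.2 h5
    push_cast at h6
    linarith
  have h5 : (0 : ℝ) < 2 ^ n := by positivity
  nlinarith

omit [DecidableEq γ] in
/-- The probabilistic core. -/
theorem core [Nonempty γ] (Bad : (List Bool → Bool) → (Fin n → Bool) → Prop) {S : ℝ} (hn : 1 ≤ n)
    (hS : 4 * S ≤ Fintype.card γ) :
    randomOracle {X | (∃ B : Finset (Fin n → Bool), 4 * B.card ≤ 2 ^ n ∧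
      ∀ x ∉ B, Light (fun X' => ¬ Bad X' x) S X) ∧ ∀ s, Bad X (pl z X s)} ≤
    Fintype.card γ * (2⁻¹) ^ Fintype.card τ := by
  have hsub : {X | (∃ B : Finset (Fin n → Bool), 4 * B.card ≤ 2 ^ n ∧
      ∀ x ∉ B, Light (fun X' => ¬ Bad X' x) S X) ∧ ∀ s, Bad X (pl z X s)} ⊆
      ⋃ g ∈ (Finset.univ : Finset γ),
        {X | (∃ B : Finset (Fin n → Bool), B.card ≤ 2 ^ (n - 1) ∧
          ∀ x ∉ B, Stable (blk z g) Bad X x) ∧ ∀ t, ¬ Stable (blk z g) Bad X (pl z X (g, t))} := by
    rintro X ⟨⟨B, hB, hx⟩, hs⟩
    obtain ⟨g, B', hB', hx'⟩ := exists_group hz hn hS hB hx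
    simp only [mem_iUnion, Finset.mem_univ, exists_true_left]
    exact ⟨g, ⟨B', hB', hx'⟩, fun t ht => ht.not_bad (hs (g, t))⟩
  refine (measure_mono hsub).trans ((measure_biUnion_finset_le _ _).trans ?_)
  refine (Finset.sum_le_sum fun g _ => measure_block hz Bad (2 ^ (n - 1)) g).trans ?_
  rw [Finset.sum_const, Finset.card_univ, nsmul_eq_mul]
  refine le_of_eq ?_
  congr 1
  obtain ⟨m, rfl⟩ : ∃ m, n = m + 1 := ⟨n - 1, by omega⟩
  have h2 : (2 : ENNReal) * 2⁻¹ = 1 := ENNReal.mul_inv_cancel (by norm_num) (by norm_num)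
  rw [Nat.add_sub_cancel, Nat.cast_pow, ← pow_mul, Nat.mul_add, Nat.mul_one, pow_add,
    ← mul_assoc, Nat.mul_comm m, Nat.cast_ofNat, ← mul_pow, h2, one_pow, one_mul]

end core

end Pool.Agent.KTR55
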