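import Pool.Agent.KTR55.Defs
import Pool.Agent.TFR21.Params

/-!
# Most strings are NO-instances
-/

set_option autoImplicit false

namespace Pool.Agent.KTR55

open Pool.Agent.TFR21

theorem no_of_forall {U : Machine} {X : List Bool → Bool} {x : List Bool}
    (h : ∀ d t, Describes U X d t x → x.length ≤ 2 * (d.length + t)) : No U X x := by
  have h1 : (((x.length + 1) / 2 : ℕ) : ℕ∞) ≤ KT U X x := by
    unfold KT
    refine le_iInf fun d => le_iInf fun t => le_iInf fun hd => ?_
    have := h d t hd
    exact_mod_cast (by omega : (x.length + 1) / 2 ≤ d.length + t)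
  have h2 : (x.length : ℕ∞) ≤ 2 * (((x.length + 1) / 2 : ℕ) : ℕ∞) := by
    exact_mod_cast (by omega : x.length ≤ 2 * ((x.length + 1) / 2))
  exact h2.trans (mul_le_mul_right h1 2)

theorem describes_unique {U : Machine} {X : List Bool → Bool} {d : List Bool} {t : ℕ}
    {x x' : List Bool} (hx : Describes U X d t x) (hx' : Describes U X d t x')
    (hl : x.length = x'.length) : x = x' := by
  refine List.ext_getElem? fun i => ?_
  by_cases hi : i < x.length
  · have h1 := hx (i + 1) (x[i]?) (by omega) (by omega)
    have h2 := hx' (i + 1) (x[i]?) (by omega) (by omega)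
    rw [Nat.add_sub_cancel] at h1 h2
    exact (h2.1 (h1.2 rfl)).symm
  · rw [List.getElem?_eq_none (by omega), List.getElem?_eq_none (by omega)]

theorem card_strs (h : ℕ) : (strs h).card ≤ 2 ^ h := by
  unfold strs
  refine Finset.card_biUnion_le.trans ?_
  have h1 : ∀ l ∈ Finset.range h, ((Finset.univ : Finset (List.Vector Bool l)).image
      (·.1)).card ≤ 2 ^ l := by
    intro l _
    refine Finset.card_image_le.trans ?_
    rw [Finset.card_univ, card_vector, Fintype.card_bool]
  refine (Finset.sum_le_sum h1).trans ?_
  have h2 := Nat.geomSum_lt (m := 2) (n := h) (s := Finset.range h) le_rfl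
    fun k hk => Finset.mem_range.1 hk
  exact h2.le

/-- There are few instances of small complexity. -/
theorem card_not_no (U : Machine) (X : List Bool → Bool) (n : ℕ) :
    ∃ B : Finset (Fin n → Bool), B.card ≤ 2 ^ ((n + 1) / 2) * n ∧
      ∀ x ∉ B, No U X (List.ofFn x) := by
  classical
  have key : ∀ x : Fin n → Bool, ¬ No U X (List.ofFn x) →
      ∃ p : List Bool × ℕ, Describes U X p.1 p.2 (List.ofFn x) ∧ 2 * (p.1.length + p.2) < n := by
    intro x hx
    by_contra hcon
    push Not at hcon
    refine hx (no_of_forall fun d t hd => ?_)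
    rw [List.length_ofFn]
    exact hcon (d, t) hd
  choose! p hp1 hp2 using key
  refine ⟨Finset.univ.filter fun x => ¬ No U X (List.ofFn x), ?_, fun x hx => ?_⟩
  · have h1 : (Finset.univ.filter fun x : Fin n → Bool => ¬ No U X (List.ofFn x)).card ≤
        (strs ((n + 1) / 2) ×ˢ Finset.range n).card := by
      refine Finset.card_le_card_of_injOn p ?_ ?_
      · intro x hx
        have h2 := hp2 x (Finset.mem_filter.1 hx).2
        simp only [Finset.coe_product, Set.mem_prod, Finset.mem_coe, mem_strs, Finset.mem_range]
        omega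
      · intro x hx y hy hxy
        have h2 := hp1 x (Finset.mem_filter.1 hx).2
        have h3 := hp1 y (Finset.mem_filter.1 hy).2
        rw [← hxy] at h3
        exact List.ofFn_injective (describes_unique h2 h3 (by simp))
    refine h1.trans ?_
    rw [Finset.card_product, Finset.card_range]
    exact Nat.mul_le_mul_right _ (card_strs _)
  · by_contra h
    exact hx (Finset.mem_filter.2 ⟨Finset.mem_univ _, h⟩)

end Pool.Agent.KTR55
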