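import Pool.Agent.ROr14.Defs

/-!
# Gap-MCSP, statistical difference and interactive proofs relative to an oracle
-/

set_option autoImplicit false

namespace Pool.Agent.KTR55

open N68a2faeb N793a5b8e N487b59b3 MeasureTheory Pool.Agent.ROr14

/-! ### Polynomial-time oracle machines -/

/-- A deterministic polynomial-time oracle machine which accepts or rejects: `q` computes the next
question from the input and the answers so far, `p` bounds the number of questions and `g` computes
the decision from the input and the answers. -/
structure PolyMachine (α : Type) [N487b59b3 α] where
  /-- the number of questions -/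
  p : Polynomial ℕ
  /-- the next question -/
  q : α × List Bool → List Bool
  /-- the decision -/
  g : α × List Bool → Bool
  /-- `q` is computed in polynomial time -/
  hq : IsPolyTime q
  /-- `g` is computed in polynomial time -/
  hg : IsPolyTime g

/-- The decision of the machine with the oracle `O` on input `x`. -/
def PolyMachine.run {α : Type} [N487b59b3 α] (M : PolyMachine α) (O : List Bool → Bool)
    (x : α) : Bool :=
  M.g (x, answers O M.q x (M.p.eval (bitEncode x).length))

/-! ### The measure KT relative to an oracle -/

/-- Machines with an oracle and random access to a string: `U X d i b t` means that with the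
oracle `X` and random access to the string `d` the input `(i, b)` is accepted within `t` steps;
here `b = none` is the letter `*`. -/
abbrev Machine := (List Bool → Bool) → List Bool → ℕ → Option Bool → ℕ → Prop

/-- A letter as a string. -/
def letter : Option Bool → List Bool
  | none => []
  | some b => [b]

/-- Universal machines: every polynomial-time oracle machine `M` has a program `e` such that with
random access to `e` followed by `d` the machine `U` accepts the same pairs `(i, b)` as `M` accepts
together with the string `d`, in polynomial time. -/
def IsUniversal (U : Machine) : Prop :=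
  ∀ M : PolyMachine ((List Bool × List Bool) × List Bool), ∃ (e : List Bool) (r : Polynomial ℕ),
    ∀ (X : List Bool → Bool) (d : List Bool) (i : ℕ) (b : Option Bool),
      (∀ t, U X (e ++ d) i b t → M.run X ((d, Nat.bits i), letter b) = true) ∧
        (M.run X ((d, Nat.bits i), letter b) = true →
          ∀ t, r.eval (d.length + Nat.size i) ≤ t → U X (e ++ d) i b t)

/-- Within `t` steps `U` decides with random access to `d` which letters are at which places
of `x`, where `*` is at the place after the last letter of `x`. -/
def Describes (U : Machine) (X : List Bool → Bool) (d : List Bool) (t : ℕ) (x : List Bool) :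
    Prop :=
  ∀ (i : ℕ) (b : Option Bool), 1 ≤ i → i ≤ x.length + 1 → (U X d i b t ↔ x[i - 1]? = b)

/-- The measure `KT` relative to the oracle `X`. -/
noncomputable def KT (U : Machine) (X : List Bool → Bool) (x : List Bool) : ℕ∞ :=
  ⨅ (d : List Bool) (t : ℕ) (_ : Describes U X d t x), ((d.length + t : ℕ) : ℕ∞)

/-- The instances `x` with `KT x ≤ |x| ^ (1 / k)`; for `k = 2` these are the YES-instances of
Gap-MCSP. -/
def Yes (U : Machine) (k : ℕ) (X : List Bool → Bool) (x : List Bool) : Prop :=
  KT U X x ^ k ≤ (x.length : ℕ∞)

/-- The instances `x` with `KT x ≥ |x| / 2`, the NO-instances of Gap-MCSP. -/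
def No (U : Machine) (X : List Bool → Bool) (x : List Bool) : Prop :=
  (x.length : ℕ∞) ≤ 2 * KT U X x

/-! ### Circuits with oracle gates -/

/-- Gates of circuits: the input bit number `k`, the NAND of the values of two earlier gates, and
the answer of the oracle to the string of the values of some earlier gates. -/
inductive Gate
  | input (k : ℕ)
  | nand (i j : ℕ)
  | oracle (l : List ℕ)

/-- A Boolean circuit with oracle gates: the number of inputs, the gates, and the numbers of the
output gates. -/
structure Circuit where
  /-- the number of inputs -/
  inputs : ℕ
  /-- the gates -/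
  gates : List Gate
  /-- the output gates -/
  outputs : List ℕ

/-- Gates as lists of numbers. -/
def Gate.toList : Gate → List ℕ
  | .input k => [0, k]
  | .nand i j => [1, i, j]
  | .oracle l => 2 :: l

/-- Reading a gate from a list of numbers. -/
def Gate.ofList : List ℕ → Option Gate
  | [0, k] => some (.input k)
  | [1, i, j] => some (.nand i j)
  | 2 :: l => some (.oracle l)
  | _ => none

instance : N487b59b3 Gate :=
  N487b59b3.ofLeftInverse Gate.toList Gate.ofList (by rintro (_ | _ | _) <;> rfl)

instance : N487b59b3 Circuit :=
  N487b59b3.ofLeftInverse (fun C => (C.inputs, C.gates, C.outputs))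
    (fun z => some ⟨z.1, z.2.1, z.2.2⟩) (fun _ => rfl)

/-- The value of a gate, for the input `r`, if `v` lists the values of the earlier gates. -/
def Gate.eval (X : List Bool → Bool) (r v : List Bool) : Gate → Bool
  | .input k => r.getD k false
  | .nand i j => !(v.getD i false && v.getD j false)
  | .oracle l => X (l.map fun i => v.getD i false)

/-- The values of a list of gates, for the input `r`, if `v` lists the values of the earlier
gates. -/
def values (X : List Bool → Bool) (r : List Bool) : List Gate → List Bool → List Bool
  | [], v => v
  | g :: gs, v => values X r gs (v ++ [g.eval X r v])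

/-- The output of the circuit. -/
def Circuit.out (C : Circuit) (X : List Bool → Bool) (r : List Bool) : List Bool :=
  C.outputs.map fun i => (values X r C.gates []).getD i false

open Classical in
/-- The probability that the output of the circuit on a uniformly random input belongs
to `T`. -/
noncomputable def Circuit.prob (C : Circuit) (X : List Bool → Bool) (T : Set (List Bool)) : ℝ :=
  ((Finset.univ.filter fun r : Fin C.inputs → Bool => C.out X (List.ofFn r) ∈ T).card : ℝ) /
    2 ^ C.inputs

/-- The statistical distance of the output distributions of two circuits. -/
noncomputable def dist (X : List Bool → Bool) (C D : Circuit) : ℝ :=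
  ⨆ T : Set (List Bool), |C.prob X T - D.prob X T|

/-- `A` is a solution of the promise problem Statistical Difference relative to `X`. -/
def SolvesSD (X A : List Bool → Bool) : Prop :=
  ∀ C D : Circuit, (dist X C D ≤ 1 / 3 → A (bitEncode (C, D)) = true) ∧
    (2 / 3 ≤ dist X C D → A (bitEncode (C, D)) = false)

/-! ### Reductions of Gap-MCSP to Statistical Difference -/

/-- Gap-MCSP, with `|x| ^ (1 / k)` in place of the square root, is many-one reducible in polynomial
time to Statistical Difference, everything relative to `X`. -/
def ManyOneReducible (U : Machine) (k : ℕ) (X : List Bool → Bool) : Prop :=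
  ∃ f : List Bool → List Bool, IsPolyTimeOracle X f ∧ ∀ x,
    (Yes U k X x → ∃ C D : Circuit, f x = bitEncode (C, D) ∧ dist X C D ≤ 1 / 3) ∧
    (No U X x → ∃ C D : Circuit, f x = bitEncode (C, D) ∧ 2 / 3 ≤ dist X C D)

/-- The probability that `M` accepts `x` with oracle `O`, advice `a` and `m` random bits. -/
noncomputable def accProb (M : PolyMachine ((List Bool × List Bool) × List Bool))
    (O : List Bool → Bool) (x a : List Bool) (m : ℕ) : ℝ :=
  ((Finset.univ.filter fun r : Fin m → Bool => M.run O ((x, a), List.ofFn r) = true).card : ℝ) /
    2 ^ m

/-- With oracle `O`, advice `a` and `m` random bits `M` decides Gap-MCSP with bounded error at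
length `n`. -/
def Decides (U : Machine) (k : ℕ) (X O : List Bool → Bool)
    (M : PolyMachine ((List Bool × List Bool) × List Bool)) (a : List Bool) (m n : ℕ) : Prop :=
  ∀ x : List Bool, x.length = n →
    (Yes U k X x → 2 / 3 ≤ accProb M O x a m) ∧ (No U X x → accProb M O x a m ≤ 1 / 3)

/-- The machine `M` which has oracle access to `X` and to a solution of Statistical Difference,
random bits and advice of polynomial length (bound `c`) decides Gap-MCSP at length `n`,
for every solution of Statistical Difference. -/
def TuringReducibleAt (U : Machine) (k : ℕ) (X : List Bool → Bool)
    (M : PolyMachine ((List Bool × List Bool) × List Bool)) (c : Polynomial ℕ) (n : ℕ) : Prop :=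
  ∃ a : List Bool, a.length ≤ c.eval n ∧ ∀ A, SolvesSD X A →
    Decides U k X (join A X) M a (c.eval n) n

/-! ### Interactive proofs -/

/-- The bits sent by the verifier and by the prover in the first `m` rounds: `V u` is the next bit
of the verifier after the bits `u` of the prover, `P v` is the next bit of the prover after the
bits `v` of the verifier. -/
def play (V P : List Bool → Bool) : ℕ → List Bool × List Bool
  | 0 => ([], [])
  | m + 1 =>
    ((play V P m).1 ++ [V (play V P m).2],
      (play V P m).2 ++ [P ((play V P m).1 ++ [V (play V P m).2])])

/-- The probability that the prover `P` convinces the verifier `M` of `x` in `m` rounds, with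
`m` random bits known only to the verifier and with the advice `a`. -/
noncomputable def winProb (M : PolyMachine ((List Bool × List Bool) × (List Bool × List Bool)))
    (X : List Bool → Bool) (x a : List Bool) (m : ℕ) (P : List Bool → Bool) : ℝ :=
  ((Finset.univ.filter fun r : Fin m → Bool => M.run X ((x, a), (List.ofFn r,
    (play (fun u => M.run X ((x, a), (List.ofFn r, u))) P m).2)) = true).card : ℝ) / 2 ^ m

/-- The verifier `M` with advice of polynomial length, polynomially many random bits and rounds
(bound `c`) and oracle `X` gives an interactive proof for the NO-instances of Gap-MCSP of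
length `n`. -/
def ProvableAt (U : Machine) (k : ℕ) (X : List Bool → Bool)
    (M : PolyMachine ((List Bool × List Bool) × (List Bool × List Bool))) (c : Polynomial ℕ)
    (n : ℕ) : Prop :=
  ∃ a : List Bool, a.length ≤ c.eval n ∧ ∀ x : List Bool, x.length = n →
    (No U X x → ∃ P, 2 / 3 ≤ winProb M X x a (c.eval n) P) ∧
    (Yes U k X x → ∀ P, winProb M X x a (c.eval n) P ≤ 1 / 3)

/-- Relative to `X`, Gap-MCSP is not in SZK, not even under randomised Turing reductions with
advice to Statistical Difference, and its NO-instances have no interactive proofs, not even
with advice; the last two assertions hold at all large lengths. -/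
def Separated (U : Machine) (k : ℕ) (X : List Bool → Bool) : Prop :=
  ¬ ManyOneReducible U k X ∧
  (∀ M c, ∀ᶠ n in Filter.atTop, ¬ TuringReducibleAt U k X M c n) ∧
  (∀ M c, ∀ᶠ n in Filter.atTop, ¬ ProvableAt U k X M c n)

end Pool.Agent.KTR55
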