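import Pool.Agent.KTR55.Main

/-!
# Universal machines exist
-/

set_option autoImplicit false

namespace Pool.Agent.KTR55

open N68a2faeb N793a5b8e N487b59b3

theorem parse_unique {j j' : ℕ} {d d' : List Bool}
    (h : List.replicate j true ++ false :: d = List.replicate j' true ++ false :: d') :
    j = j' ∧ d = d' := by
  induction j generalizing j' with
  | zero =>
    cases j' with
    | zero => simpa using h
    | succ j' => simp [List.replicate_succ] at h
  | succ j ih =>
    cases j' with
    | zero => simp [List.replicate_succ] at h
    | succ j' =>
      rw [List.replicate_succ, List.replicate_succ, List.cons_append, List.cons_append,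
        List.cons.injEq] at h
      obtain ⟨h1, h2⟩ := ih h.2
      exact ⟨by rw [h1], h2⟩

/-- There are universal machines. -/
theorem exists_universal : ∃ U : Machine, IsUniversal U := by
  have hc : Countable (PolyMachine ((List Bool × List Bool) × List Bool)) := countable_machine
  by_cases hne : Nonempty (PolyMachine ((List Bool × List Bool) × List Bool))
  · obtain ⟨φ, hφ⟩ := exists_surjective_nat (PolyMachine ((List Bool × List Bool) × List Bool))
    refine ⟨fun X d i b t => ∃ (j : ℕ) (d' : List Bool),
      d = List.replicate j true ++ false :: d' ∧ d'.length + Nat.size i ≤ t ∧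
        (φ j).run X ((d', Nat.bits i), letter b) = true, fun M => ?_⟩
    obtain ⟨j, rfl⟩ := hφ M
    refine ⟨List.replicate j true ++ [false], Polynomial.X, fun X d i b => ⟨?_, ?_⟩⟩
    · rintro t ⟨j', d', h1, _, h2⟩
      rw [List.append_assoc] at h1
      obtain ⟨rfl, rfl⟩ := parse_unique h1
      exact h2
    · intro h t ht
      rw [Polynomial.eval_X] at ht
      exact ⟨j, d, by rw [List.append_assoc]; rfl, ht, h⟩
  · exact ⟨fun _ _ _ _ _ => False, fun M => absurd ⟨M⟩ hne⟩

end Pool.Agent.KTR55
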