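import Pool.Agent.ROr14.Main

/-!
# Growth estimates
-/

set_option autoImplicit false

namespace Pool.Agent.KTR55

open Filter Pool.Agent.PT Pool.Agent.POpt67 Pool.Agent.POpt70 Pool.Agent.ROr14

/-- Polynomials grow slower than powers of two. -/
theorem poly_le_two_pow (Q : Polynomial ℕ) : ∀ᶠ L : ℕ in atTop, Q.eval L ≤ 2 ^ L := by
  obtain ⟨a, ha⟩ := exists_pow_bound Q
  have h1 : ∀ᶠ L : ℕ in atTop, (L + 2) ^ (a + 1) ≤ 2 ^ L := by
    have h2 := tendsto_pow_const_div_const_pow_of_one_lt (a + 1) (r := (2 : ℝ)) (by norm_num)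
    have h3 : Tendsto (fun n : ℕ => ((n + 2 : ℕ) : ℝ) ^ (a + 1) / 2 ^ (n + 2)) atTop (nhds 0) :=
      h2.comp (tendsto_add_atTop_nat 2)
    filter_upwards [h3.eventually (gt_mem_nhds (by norm_num : (0 : ℝ) < 1 / 4))] with L hL
    rw [div_lt_iff₀ (by positivity)] at hL
    have h4 : (((L + 2) ^ (a + 1) : ℕ) : ℝ) < ((2 ^ L : ℕ) : ℝ) := by
      push_cast
      push_cast at hL
      rw [pow_add 2 L 2] at hL
      linarith
    exact_mod_cast h4.le
  filter_upwards [h1] with L hL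
  exact (ha L).trans hL

theorem tendsto_log : Tendsto (fun n : ℕ => Nat.log 2 n) atTop atTop := by
  refine tendsto_atTop_atTop.2 fun b => ⟨2 ^ b, fun n hn => ?_⟩
  have := Nat.log_mono_right (b := 2) hn
  rwa [Nat.log_pow (by norm_num)] at this

/-- Polynomials in the logarithm. -/
theorem poly_log_le (Q : Polynomial ℕ) : ∀ᶠ n : ℕ in atTop, Q.eval (Nat.log 2 n) ≤ n := by
  filter_upwards [tendsto_log.eventually (poly_le_two_pow Q), eventually_gt_atTop 0] with n h1 h2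
  exact h1.trans (Nat.pow_log_le_self 2 h2.ne')

/-- The length of the seeds is `ml n + ml n`. -/
def ml (n : ℕ) : ℕ := Nat.log 2 n ^ 2

theorem poly_le_ml (P : Polynomial ℕ) : ∀ᶠ n : ℕ in atTop, P.eval n ≤ 2 ^ ml n := by
  obtain ⟨a, ha⟩ := exists_pow_bound P
  filter_upwards [tendsto_log.eventually (eventually_ge_atTop (3 * (a + 1)))] with n h1
  refine (ha n).trans ?_
  set L := Nat.log 2 n with hL
  have h2 : n + 2 ≤ 2 ^ (L + 2) := by
    have h3 := Nat.lt_pow_succ_log_self (b := 2) (by norm_num) n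
    rw [← hL] at h3
    have h4 : 2 ≤ 2 ^ (L + 1) := by
      rw [pow_succ]
      have := Nat.one_le_two_pow (n := L)
      omega
    rw [pow_succ 2 (L + 1)]
    omega
  refine (Nat.pow_le_pow_left h2 _).trans ?_
  rw [← pow_mul]
  refine Nat.pow_le_pow_right (by norm_num) ?_
  unfold ml
  rw [← hL]
  have h5 : (L + 2) * (a + 1) ≤ (3 * L) * (a + 1) := Nat.mul_le_mul_right _ (by omega)
  have h6 : (3 * L) * (a + 1) = L * (3 * (a + 1)) := by ring
  rw [sq]
  exact (h5.trans h6.le).trans (Nat.mul_le_mul_left _ h1)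

/-- Few instances have small complexity. -/
theorem half_growth : ∀ᶠ n : ℕ in atTop, 4 * (2 ^ ((n + 1) / 2) * n) ≤ 2 ^ n := by
  have h := poly_le_two_pow (Polynomial.C 64 * Polynomial.X ^ 2)
  filter_upwards [h] with n hn
  simp only [Polynomial.eval_mul, Polynomial.eval_C, Polynomial.eval_pow, Polynomial.eval_X]
    at hn
  have h1 : (8 * n) ^ 2 ≤ 2 ^ n := by
    have : (8 * n) ^ 2 = 64 * n ^ 2 := by ring
    omega
  have h2 : 8 * n ≤ 2 ^ ((n + 1) / 2) := by
    by_contra hcon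
    rw [not_le] at hcon
    have h3 := Nat.pow_lt_pow_left hcon (n := 2) (by norm_num)
    rw [← pow_mul] at h3
    have h4 : 2 ^ n ≤ 2 ^ ((n + 1) / 2 * 2) := Nat.pow_le_pow_right (by norm_num) (by omega)
    omega
  have h5 : 2 ^ ((n + 1) / 2) * 2 ^ ((n + 1) / 2) ≤ 2 * 2 ^ n := by
    rw [← pow_add, ← pow_succ']
    exact Nat.pow_le_pow_right (by norm_num) (by omega)
  have h6 : 2 ^ ((n + 1) / 2) * (8 * n) ≤ 2 ^ ((n + 1) / 2) * 2 ^ ((n + 1) / 2) :=
    Nat.mul_le_mul_left _ h2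
  nlinarith

end Pool.Agent.KTR55
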