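import Pool.Agent.KTR55.Core
import Pool.Agent.KTR55.Circ

/-!
# Robust assertions on oracles
-/

set_option autoImplicit false

namespace Pool.Agent.KTR55

open N68a2faeb N793a5b8e N487b59b3 Pool.Agent.ROr14

variable {X : List Bool → Bool}

theorem Light.mono {P Q : (List Bool → Bool) → Prop} {S S' : ℝ} (h : Light P S X)
    (hS : S ≤ S') (hPQ : ∀ X', P X' → Q X') : Light Q S' X := by
  obtain ⟨F, ω, h0, hs, h⟩ := h
  exact ⟨F, ω, h0, hs.trans hS, fun X' hX' => hPQ X' (h X' hX')⟩

theorem Light.of_forall {P : (List Bool → Bool) → Prop} {S : ℝ} (hS : 0 ≤ S) (h : ∀ X', P X') :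
    Light P S X := ⟨∅, fun _ => 0, fun _ => le_rfl, by simpa using hS, fun X' _ => h X'⟩

theorem light_set {F : Finset (List Bool)} {P : (List Bool → Bool) → Prop}
    (h : ∀ X', (∀ y ∈ F, X' y = X y) → P X') : Light P F.card X := by
  refine ⟨F, fun _ => 1, fun _ => zero_le_one, by simp, fun X' hX' => h X' fun y hy => ?_⟩
  by_contra hne
  have h1 : F.filter (fun y => X' y ≠ X y) = ∅ := by
    rw [Finset.sum_const, nsmul_eq_mul, mul_one] at hX'
    rw [← Finset.card_eq_zero]
    exact_mod_cast Nat.lt_one_iff.1 (by exact_mod_cast hX')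
  rw [Finset.filter_eq_empty_iff] at h1
  exact h1 hy hne

/-- Weighted sums of weights. -/
theorem light_sum {ι : Type} {s : Finset ι} {P : ι → (List Bool → Bool) → Prop} {S : ℝ}
    (h : ∀ i ∈ s, Light (P i) S X) {κ : ℝ} (hκ : 0 ≤ κ)
    {Q : (List Bool → Bool) → Prop}
    (hQ : ∀ (X' : List Bool → Bool) (e : ι → ℝ), (∀ i ∈ s, 0 ≤ e i) →
      (∀ i ∈ s, e i < 1 → P i X') → κ * ∑ i ∈ s, e i < 1 → Q X') :
    Light Q (κ * (s.card * S)) X := by
  classical
  choose! F ω h0 hS hP using h
  refine ⟨s.biUnion F, fun y => κ * ∑ i ∈ s, if y ∈ F i then ω i y else 0, ?_, ?_, ?_⟩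
  · intro y
    refine mul_nonneg hκ (Finset.sum_nonneg fun i hi => ?_)
    split_ifs
    · exact h0 i hi y
    · exact le_rfl
  · rw [← Finset.mul_sum]
    refine mul_le_mul_of_nonneg_left ?_ hκ
    rw [Finset.sum_comm]
    have h1 : ∀ i ∈ s, ∑ y ∈ s.biUnion F, (if y ∈ F i then ω i y else 0) ≤ S := by
      intro i hi
      rw [← Finset.sum_filter]
      refine (Finset.sum_le_sum_of_subset_of_nonneg ?_ fun y _ _ => h0 i hi y).trans (hS i hi)
      intro y hy
      exact (Finset.mem_filter.1 hy).2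
    refine (Finset.sum_le_sum h1).trans ?_
    rw [Finset.sum_const, nsmul_eq_mul]
  · intro X' hX'
    refine hQ X' (fun i => ∑ y ∈ (F i).filter (fun y => X' y ≠ X y), ω i y) ?_ ?_ ?_
    · intro i hi
      exact Finset.sum_nonneg fun y _ => h0 i hi y
    · intro i hi hlt
      exact hP i hi X' hlt
    · refine lt_of_le_of_lt ?_ hX'
      rw [← Finset.mul_sum]
      refine mul_le_mul_of_nonneg_left ?_ hκ
      rw [Finset.sum_comm]
      refine Finset.sum_le_sum fun i hi => ?_
      rw [← Finset.sum_filter]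
      refine Finset.sum_le_sum_of_subset_of_nonneg ?_ fun y _ _ => h0 i hi y
      intro y hy
      rw [Finset.mem_filter] at hy
      rw [Finset.mem_filter, Finset.mem_filter]
      exact ⟨⟨Finset.mem_biUnion.2 ⟨i, hi, hy.1⟩, hy.2⟩, hy.1⟩

/-- Finite conjunctions. -/
theorem light_forall {ι : Type} {s : Finset ι} {P : ι → (List Bool → Bool) → Prop} {S : ℝ}
    (h : ∀ i ∈ s, Light (P i) S X) : Light (fun X' => ∀ i ∈ s, P i X') (s.card * S) X := by
  have := light_sum h (κ := 1) zero_le_one (Q := fun X' => ∀ i ∈ s, P i X')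
    fun X' e h0 h1 h2 i hi => h1 i hi ?_
  · rwa [one_mul] at this
  · rw [one_mul] at h2
    exact (Finset.single_le_sum h0 hi).trans_lt h2

/-- Averages over random bits. -/
theorem light_avg {m : ℕ} {Q : (Fin m → Bool) → (List Bool → Bool) → Prop} {S : ℝ}
    [∀ X', DecidablePred fun r => ¬ Q r X'] (h : ∀ r, Light (Q r) S X) :
    Light (fun X' => ((Finset.univ.filter fun r => ¬ Q r X').card : ℝ) < 2 ^ m / 3)
      (3 * S) X := by
  have h1 := light_sum (s := (Finset.univ : Finset (Fin m → Bool))) (fun r _ => h r)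
    (κ := 3 / 2 ^ m) (by positivity)
    (Q := fun X' => ((Finset.univ.filter fun r => ¬ Q r X').card : ℝ) < 2 ^ m / 3) ?_
  · have h2 : (3 : ℝ) / 2 ^ m * (((Finset.univ : Finset (Fin m → Bool)).card : ℝ) * S) =
        3 * S := by
      rw [Finset.card_univ, Fintype.card_fun, Fintype.card_bool, Fintype.card_fin]
      push_cast
      field_simp
    rwa [h2] at h1
  · intro X' e h0 h1 h2
    have h3 : ((Finset.univ.filter fun r => ¬ Q r X').card : ℝ) ≤ ∑ r, e r := by
      have h4 : ∀ r ∈ Finset.univ.filter (fun r => ¬ Q r X'), 1 ≤ e r := by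
        intro r hr
        by_contra hlt
        exact (Finset.mem_filter.1 hr).2 (h1 r (Finset.mem_univ _) (not_le.1 hlt))
      calc ((Finset.univ.filter fun r => ¬ Q r X').card : ℝ)
          = ∑ r ∈ Finset.univ.filter (fun r => ¬ Q r X'), (1 : ℝ) := by simp
        _ ≤ ∑ r ∈ Finset.univ.filter (fun r => ¬ Q r X'), e r := Finset.sum_le_sum h4
        _ ≤ ∑ r, e r := Finset.sum_le_sum_of_subset_of_nonneg (Finset.filter_subset _ _)
          fun r hr _ => h0 r hr
    refine h3.trans_lt ?_
    have h4 : (0 : ℝ) < 2 ^ m := by positivity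
    rw [lt_div_iff₀ (by norm_num)]
    rw [div_mul_eq_mul_div, div_lt_one h4] at h2
    linarith

/-- Access to the random oracle through another oracle. -/
theorem light_mix {c : List Bool → Option (List Bool)} {A R : List Bool → Bool}
    {P : (List Bool → Bool) → Prop} {S : ℝ} (h : Light P S (mix c A R)) :
    Light (fun R' => P (mix c A R')) S R := by
  classical
  obtain ⟨F, ω, h0, hS, h⟩ := h
  refine ⟨F.biUnion fun y => (c y).toFinset,
    fun z => ∑ y ∈ F.filter (fun y => c y = some z), ω y, ?_, ?_, ?_⟩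
  · intro z
    exact Finset.sum_nonneg fun y _ => h0 y
  · rw [← Finset.sum_biUnion]
    · refine (Finset.sum_le_sum_of_subset_of_nonneg ?_ fun y _ _ => h0 y).trans hS
      intro y hy
      obtain ⟨z, _, hy⟩ := Finset.mem_biUnion.1 hy
      exact (Finset.mem_filter.1 hy).1
    · intro z _ z' _ hzz
      refine Finset.disjoint_left.2 fun y hy hy' => hzz ?_
      have h1 := (Finset.mem_filter.1 hy).2
      have h2 := (Finset.mem_filter.1 hy').2
      rw [h1] at h2
      exact Option.some.inj h2
  · intro R' hR'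
    refine h _ (lt_of_le_of_lt ?_ hR')
    rw [← Finset.sum_biUnion]
    · refine Finset.sum_le_sum_of_subset_of_nonneg ?_ fun y _ _ => h0 y
      intro y hy
      rw [Finset.mem_filter] at hy
      obtain ⟨hy, hne⟩ := hy
      unfold mix at hne
      cases hc : c y with
      | none => rw [hc] at hne; exact absurd rfl hne
      | some z =>
        rw [hc] at hne
        refine Finset.mem_biUnion.2 ⟨z, Finset.mem_filter.2 ⟨Finset.mem_biUnion.2 ⟨y, hy, ?_⟩,
          hne⟩, Finset.mem_filter.2 ⟨hy, hc⟩⟩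
        rw [hc]
        simp
    · intro z _ z' _ hzz
      refine Finset.disjoint_left.2 fun y hy hy' => hzz ?_
      have h1 := (Finset.mem_filter.1 hy).2
      have h2 := (Finset.mem_filter.1 hy').2
      rw [h1] at h2
      exact Option.some.inj h2

end Pool.Agent.KTR55
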