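import Pool.Agent.KTR55.Light
import Pool.Agent.ROr14.Calc

/-!
# Runs of oracle machines are robust
-/

set_option autoImplicit false

namespace Pool.Agent.KTR55

open N68a2faeb N793a5b8e N487b59b3 Pool.Agent.ROr14

/-! ### Solutions of Statistical Difference which are stable -/

open Classical in
/-- The answer of the solution of Statistical Difference relative to `X'` which is close to the
threshold solution relative to `X`. -/
noncomputable def sdVal (X X' : List Bool → Bool) (C D : Circuit) : Bool :=
  if dist X' C D ≤ 1 / 3 then true
  else if 2 / 3 ≤ dist X' C D then false else decide (dist X C D ≤ 1 / 2)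

open Classical in
/-- The solution of Statistical Difference relative to `X'` which is close to the threshold
solution relative to `X`. -/
noncomputable def sol (X X' : List Bool → Bool) (w : List Bool) : Bool :=
  if h : ∃ p : Circuit × Circuit, bitEncode p = w then sdVal X X' h.choose.1 h.choose.2 else false

theorem sol_enc (X X' : List Bool → Bool) (C D : Circuit) :
    sol X X' (bitEncode (C, D)) = sdVal X X' C D := by
  have h : ∃ p : Circuit × Circuit, bitEncode p = bitEncode (C, D) := ⟨(C, D), rfl⟩
  unfold sol
  rw [dif_pos h, bitEncode_injective h.choose_spec]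

theorem solvesSD_sol (X X' : List Bool → Bool) : SolvesSD X' (sol X X') := by
  intro C D
  constructor
  · intro h
    rw [sol_enc, sdVal, if_pos h]
  · intro h
    rw [sol_enc, sdVal, if_neg (by linarith), if_pos h]

theorem sdVal_eq {X X' : List Bool → Bool} {C D : Circuit}
    (h : |dist X' C D - dist X C D| < 1 / 6) : sdVal X X' C D = sdVal X X C D := by
  rw [abs_lt] at h
  have h0 : sdVal X X C D = decide (dist X C D ≤ 1 / 2) := by
    unfold sdVal
    by_cases h1 : dist X C D ≤ 1 / 3
    · rw [if_pos h1]
      symm
      rw [decide_eq_true_iff]
      linarith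
    · rw [if_neg h1]
      by_cases h2 : 2 / 3 ≤ dist X C D
      · rw [if_pos h2]
        symm
        rw [decide_eq_false_iff_not]
        linarith
      · rw [if_neg h2]
  rw [h0]
  unfold sdVal
  by_cases h1 : dist X' C D ≤ 1 / 3
  · rw [if_pos h1]
    symm
    rw [decide_eq_true_iff]
    linarith [h.1]
  · rw [if_neg h1]
    by_cases h2 : 2 / 3 ≤ dist X' C D
    · rw [if_pos h2]
      symm
      rw [decide_eq_false_iff_not]
      linarith [h.2]
    · rw [if_neg h2]

/-- The answer to a question of length at most `B` is robust. -/
theorem light_query (X : List Bool → Bool) {B : ℕ} {w : List Bool} (hw : w.length ≤ B) :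
    Light (fun X' => join (sol X X') X' w = join (sol X X) X w) (12 * B + 1) X := by
  rcases w with _ | ⟨b, w⟩
  · exact Light.of_forall (by positivity) fun X' => rfl
  · rw [List.length_cons] at hw
    cases b with
    | true =>
      refine (light_set (F := {w}) fun X' h => ?_).mono (S := ((({w} : Finset (List Bool)).card :
        ℕ) : ℝ)) ?_ fun X' h => h
      · exact h w (Finset.mem_singleton_self w)
      · rw [Finset.card_singleton]
        push_cast
        linarith [(Nat.cast_nonneg B : (0 : ℝ) ≤ B)]
    | false =>
      by_cases hp : ∃ p : Circuit × Circuit, bitEncode p = w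
      · obtain ⟨⟨C, D⟩, rfl⟩ := hp
        refine ⟨C.supp X ∪ D.supp X, fun y => 6 * (C.weight X y + D.weight X y), fun y => ?_, ?_,
          fun X' hX' => ?_⟩
        · have h1 := C.weight_nonneg X y
          have h2 := D.weight_nonneg X y
          positivity
        · rw [← Finset.mul_sum, Finset.sum_add_distrib]
          have h1 := C.sum_weight X (C.supp X ∪ D.supp X)
          have h2 := D.sum_weight X (C.supp X ∪ D.supp X)
          have h3 : (C.gates.length : ℝ) ≤ B := by
            exact_mod_cast (gates_length_le_fst C D).trans (by omega)
          have h4 : (D.gates.length : ℝ) ≤ B := by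
            exact_mod_cast (gates_length_le_snd C D).trans (by omega)
          linarith
        · have h1 := dist_change C D (X := X) (X' := X') (F := C.supp X ∪ D.supp X)
            Finset.subset_union_left Finset.subset_union_right
          rw [← Finset.mul_sum] at hX'
          show sol X X' (bitEncode (C, D)) = sol X X (bitEncode (C, D))
          rw [sol_enc, sol_enc]
          exact sdVal_eq (lt_of_le_of_lt h1 (by linarith))
      · refine Light.of_forall (by positivity) fun X' => ?_
        show sol X X' w = sol X X w
        unfold sol
        rw [dif_neg hp, dif_neg hp]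

/-! ### Runs -/

theorem answers_congr {O O' : List Bool → Bool} {α : Type} {q : α × List Bool → List Bool}
    {x : α} {m : ℕ} (h : ∀ j < m, O' (q (x, answers O q x j)) = O (q (x, answers O q x j))) :
    ∀ j ≤ m, answers O' q x j = answers O q x j := by
  intro j
  induction j with
  | zero => intro _; rfl
  | succ j ih =>
    intro hj
    rw [answers, answers, ih (by omega), h j (by omega)]

/-- A run with a solution of Statistical Difference is robust. -/
theorem light_run {α : Type} [N487b59b3 α] (M : PolyMachine α) (X : List Bool → Bool) (x : α)
    {N B : ℕ} (hN : M.p.eval (bitEncode x).length ≤ N)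
    (hB : ∀ a : List Bool, a.length ≤ N → (M.q (x, a)).length ≤ B) :
    Light (fun X' => M.run (join (sol X X') X') x = M.run (join (sol X X) X) x)
      (N * (12 * B + 1)) X := by
  have h1 := light_forall (s := Finset.range (M.p.eval (bitEncode x).length)) (X := X)
    (P := fun j X' => join (sol X X') X' (M.q (x, answers (join (sol X X) X) M.q x j)) =
      join (sol X X) X (M.q (x, answers (join (sol X X) X) M.q x j)))
    (S := 12 * B + 1) (fun j hj => light_query X (hB _ ?_))
  · refine h1.mono ?_ fun X' h => ?_
    · rw [Finset.card_range]
      refine mul_le_mul_of_nonneg_right ?_ (by positivity)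
      exact_mod_cast hN
    · unfold PolyMachine.run
      rw [answers_congr (fun j hj => h j (Finset.mem_range.2 hj)) _ le_rfl]
  · rw [answers_length]
    rw [Finset.mem_range] at hj
    omega

/-- The questions of a run. -/
def PolyMachine.quest {α : Type} [N487b59b3 α] (M : PolyMachine α) (O : List Bool → Bool)
    (x : α) : Finset (List Bool) :=
  (Finset.range (M.p.eval (bitEncode x).length)).image fun j => M.q (x, answers O M.q x j)

theorem PolyMachine.card_quest {α : Type} [N487b59b3 α] (M : PolyMachine α)
    (O : List Bool → Bool) (x : α) :
    (M.quest O x).card ≤ M.p.eval (bitEncode x).length := by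
  refine Finset.card_image_le.trans ?_
  rw [Finset.card_range]

theorem PolyMachine.run_congr {α : Type} [N487b59b3 α] {M : PolyMachine α}
    {O O' : List Bool → Bool} {x : α} (h : ∀ y ∈ M.quest O x, O' y = O y) :
    M.run O' x = M.run O x := by
  unfold PolyMachine.run
  rw [answers_congr (fun j hj => h _ (Finset.mem_image.2 ⟨j, Finset.mem_range.2 hj, rfl⟩)) _
    le_rfl]

/-! ### Interactions -/

theorem play_length (V P : List Bool → Bool) (m : ℕ) : (play V P m).2.length = m := by
  induction m with
  | zero => rfl
  | succ m ih => rw [play, List.length_append, ih]; rfl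

theorem play_congr {V V' P : List Bool → Bool} {m : ℕ}
    (h : ∀ i < m, V' (play V P i).2 = V (play V P i).2) :
    ∀ i ≤ m, play V' P i = play V P i := by
  intro i
  induction i with
  | zero => intro _; rfl
  | succ i ih =>
    intro hi
    rw [play, play, ih (by omega), h i (by omega)]

/-- Interactions are robust. -/
theorem light_play {M : PolyMachine ((List Bool × List Bool) × (List Bool × List Bool))}
    (X : List Bool → Bool) (x a r : List Bool) (P : List Bool → Bool) {m N : ℕ}
    (hN : ∀ u : List Bool, u.length ≤ m → M.p.eval (bitEncode ((x, a), (r, u))).length ≤ N) :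
    Light (fun X' => M.run X' ((x, a), (r, (play (fun u => M.run X' ((x, a), (r, u))) P m).2)) =
      M.run X ((x, a), (r, (play (fun u => M.run X ((x, a), (r, u))) P m).2)))
      ((m + 1) * N) X := by
  have h1 := light_forall (s := Finset.range (m + 1)) (X := X)
    (P := fun i X' => M.run X' ((x, a), (r, (play (fun u => M.run X ((x, a), (r, u))) P i).2)) =
      M.run X ((x, a), (r, (play (fun u => M.run X ((x, a), (r, u))) P i).2)))
    (S := N) (fun i hi => ?_)
  · refine h1.mono ?_ fun X' h => ?_
    · rw [Finset.card_range]
      push_cast
      exact le_rfl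
    · rw [play_congr (V := fun u => M.run X ((x, a), (r, u))) (m := m)
        (fun i hi => h i (Finset.mem_range.2 (by omega))) m le_rfl]
      exact h m (Finset.mem_range.2 (by omega))
  · rw [Finset.mem_range] at hi
    refine (light_set (F := M.quest X ((x, a), (r, (play (fun u => M.run X ((x, a), (r, u)))
      P i).2))) fun X' h => PolyMachine.run_congr h).mono ?_ fun X' h => h
    have h2 := (M.card_quest X ((x, a), (r, (play (fun u => M.run X ((x, a), (r, u)))
      P i).2))).trans (hN _ (by rw [play_length]; omega))
    exact_mod_cast h2

/-! ### Robust probabilities -/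

/-- If `M` rejects then it does not accept too often after small changes. -/
theorem light_accProb {M : PolyMachine ((List Bool × List Bool) × List Bool)}
    {X : List Bool → Bool} {x a : List Bool} {m N B : ℕ}
    (h : ∀ A, SolvesSD X A → accProb M (join A X) x a m ≤ 1 / 3)
    (hN : ∀ r : List Bool, r.length ≤ m → M.p.eval (bitEncode ((x, a), r)).length ≤ N)
    (hB : ∀ r b : List Bool, r.length ≤ m → b.length ≤ N → (M.q (((x, a), r), b)).length ≤ B) :
    Light (fun X' => ¬ ∀ A, SolvesSD X' A → 2 / 3 ≤ accProb M (join A X') x a m)
      (3 * (N * (12 * B + 1))) X := by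
  classical
  have h1 := light_avg (m := m) (X := X) (Q := fun r X' =>
    M.run (join (sol X X') X') ((x, a), List.ofFn r) =
      M.run (join (sol X X) X) ((x, a), List.ofFn r)) (S := N * (12 * B + 1)) fun r =>
    light_run M X ((x, a), List.ofFn r) (hN _ (by rw [List.length_ofFn]))
      (fun b hb => hB _ b (by rw [List.length_ofFn]) hb)
  refine h1.mono le_rfl fun X' h2 hall => ?_
  have h3 := hall _ (solvesSD_sol X X')
  have h4 := h _ (solvesSD_sol X X)
  unfold accProb at h3 h4
  have hm : (0 : ℝ) < 2 ^ m := by positivity
  rw [le_div_iff₀ hm] at h3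
  rw [div_le_iff₀ hm] at h4
  have h5 : (Finset.univ.filter fun r : Fin m → Bool =>
      M.run (join (sol X X') X') ((x, a), List.ofFn r) = true) ⊆
      (Finset.univ.filter fun r : Fin m → Bool =>
        M.run (join (sol X X) X) ((x, a), List.ofFn r) = true) ∪
      Finset.univ.filter fun r : Fin m → Bool =>
        ¬ M.run (join (sol X X') X') ((x, a), List.ofFn r) =
          M.run (join (sol X X) X) ((x, a), List.ofFn r) := by
    intro r hr
    rw [Finset.mem_union, Finset.mem_filter, Finset.mem_filter]
    rw [Finset.mem_filter] at hr
    by_cases he : M.run (join (sol X X') X') ((x, a), List.ofFn r) =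
        M.run (join (sol X X) X) ((x, a), List.ofFn r)
    · left
      exact ⟨Finset.mem_univ _, he ▸ hr.2⟩
    · right
      exact ⟨Finset.mem_univ _, he⟩
  have h6 := (Finset.card_le_card h5).trans (Finset.card_union_le _ _)
  have h7 : ((Finset.univ.filter fun r : Fin m → Bool =>
      M.run (join (sol X X') X') ((x, a), List.ofFn r) = true).card : ℝ) ≤
      (Finset.univ.filter fun r : Fin m → Bool =>
        M.run (join (sol X X) X) ((x, a), List.ofFn r) = true).card +
      (Finset.univ.filter fun r : Fin m → Bool =>
        ¬ M.run (join (sol X X') X') ((x, a), List.ofFn r) =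
          M.run (join (sol X X) X) ((x, a), List.ofFn r)).card := by exact_mod_cast h6
  linarith

/-- If a prover is successful then he is not without success after small changes. -/
theorem light_winProb {M : PolyMachine ((List Bool × List Bool) × (List Bool × List Bool))}
    {X : List Bool → Bool} {x a : List Bool} {m N : ℕ}
    (h : ∃ P, 2 / 3 ≤ winProb M X x a m P)
    (hN : ∀ r u : List Bool, r.length ≤ m → u.length ≤ m →
      M.p.eval (bitEncode ((x, a), (r, u))).length ≤ N) :
    Light (fun X' => ¬ ∀ P, winProb M X' x a m P ≤ 1 / 3) (3 * ((m + 1) * N)) X := by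
  classical
  obtain ⟨P, hP⟩ := h
  have h1 := light_avg (m := m) (X := X) (Q := fun r X' =>
    M.run X' ((x, a), (List.ofFn r, (play (fun u => M.run X' ((x, a), (List.ofFn r, u))) P m).2)) =
      M.run X ((x, a), (List.ofFn r, (play (fun u => M.run X ((x, a), (List.ofFn r, u))) P m).2)))
    (S := (m + 1) * N) fun r => light_play X x a (List.ofFn r) P
      (fun u hu => hN _ u (by rw [List.length_ofFn]) hu)
  refine h1.mono le_rfl fun X' h2 hall => ?_
  have h3 := hall P
  unfold winProb at h3 hP
  have hm : (0 : ℝ) < 2 ^ m := by positivity
  rw [div_le_iff₀ hm] at h3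
  rw [le_div_iff₀ hm] at hP
  have h5 : (Finset.univ.filter fun r : Fin m → Bool => M.run X ((x, a), (List.ofFn r,
      (play (fun u => M.run X ((x, a), (List.ofFn r, u))) P m).2)) = true) ⊆
      (Finset.univ.filter fun r : Fin m → Bool => M.run X' ((x, a), (List.ofFn r,
        (play (fun u => M.run X' ((x, a), (List.ofFn r, u))) P m).2)) = true) ∪
      Finset.univ.filter fun r : Fin m → Bool =>
        ¬ M.run X' ((x, a), (List.ofFn r,
          (play (fun u => M.run X' ((x, a), (List.ofFn r, u))) P m).2)) =
          M.run X ((x, a), (List.ofFn r,
            (play (fun u => M.run X ((x, a), (List.ofFn r, u))) P m).2)) := by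
    intro r hr
    rw [Finset.mem_union, Finset.mem_filter, Finset.mem_filter]
    rw [Finset.mem_filter] at hr
    by_cases he : M.run X' ((x, a), (List.ofFn r,
          (play (fun u => M.run X' ((x, a), (List.ofFn r, u))) P m).2)) =
          M.run X ((x, a), (List.ofFn r,
            (play (fun u => M.run X ((x, a), (List.ofFn r, u))) P m).2))
    · left
      exact ⟨Finset.mem_univ _, he.trans hr.2⟩
    · right
      exact ⟨Finset.mem_univ _, he⟩
  have h6 := (Finset.card_le_card h5).trans (Finset.card_union_le _ _)
  have h7 : ((Finset.univ.filter fun r : Fin m → Bool => M.run X ((x, a), (List.ofFn r,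
      (play (fun u => M.run X ((x, a), (List.ofFn r, u))) P m).2)) = true).card : ℝ) ≤
      (Finset.univ.filter fun r : Fin m → Bool => M.run X' ((x, a), (List.ofFn r,
        (play (fun u => M.run X' ((x, a), (List.ofFn r, u))) P m).2)) = true).card +
      (Finset.univ.filter fun r : Fin m → Bool =>
        ¬ M.run X' ((x, a), (List.ofFn r,
          (play (fun u => M.run X' ((x, a), (List.ofFn r, u))) P m).2)) =
          M.run X ((x, a), (List.ofFn r,
            (play (fun u => M.run X ((x, a), (List.ofFn r, u))) P m).2))).card := by
    exact_mod_cast h6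
  linarith

end Pool.Agent.KTR55
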