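import Pool.Agent.KTR55.Growth
import Pool.Agent.KTR55.Core
import Pool.Agent.KTR55.Defs

/-!
# Planted strings are YES-instances
-/

set_option autoImplicit false

namespace Pool.Agent.KTR55

open N68a2faeb N793a5b8e N487b59b3 Filter
open Pool.Agent.PT Pool.Agent.TMB67 Pool.Agent.POpt67 Pool.Agent.POpt70 Pool.Agent.ROr14

theorem bits_injective : Function.Injective Nat.bits := by
  intro a b h
  have h1 := Nat.digits_two_eq_bits a
  have h2 := Nat.digits_two_eq_bits b
  rw [h, ← h2] at h1
  exact Nat.digits_inj_iff.1 h1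

/-- From uniform polynomial time to machines. -/
theorem exists_machine {α : Type} [N487b59b3 α] [Enc α] [Compat α]
    {F : (List Bool → Bool) → α → Bool} (hF : UT F) :
    ∃ M : PolyMachine α, ∀ X x, M.run X x = F X x := by
  obtain ⟨p, q, g, hq, hg, hF⟩ := hF
  obtain ⟨r, hr⟩ := exists_sz_bound (α := α)
  refine ⟨⟨p.comp r, q, g, isPolyTime_iff.2 hq, isPolyTime_iff.2 hg⟩, fun X x => ?_⟩
  unfold PolyMachine.run
  rw [Polynomial.eval_comp]
  exact (hF X x _ (eval_mono p (hr x))).symm

/-- The name of the string planted at the place `s`. -/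
def dsc (n : ℕ) (s : (Fin (ml n) → Bool) × (Fin (ml n) → Bool)) : List Bool :=
  bitEncode (Nat.bits (n + 1), List.ofFn s.1 ++ List.ofFn s.2)

/-- The coordinates of the planted strings. -/
def crdn (n : ℕ) (s : (Fin (ml n) → Bool) × (Fin (ml n) → Bool)) (i : Fin n) : List Bool :=
  bitEncode (dsc n s, Nat.bits (i + 1))

theorem crdn_injective (n : ℕ) : Function.Injective
    fun p : ((Fin (ml n) → Bool) × (Fin (ml n) → Bool)) × Fin n => crdn n p.1 p.2 := by
  rintro ⟨⟨g, t⟩, i⟩ ⟨⟨g', t'⟩, i'⟩ h
  have h1 := bitEncode_injective (α := List Bool × List Bool) h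
  rw [Prod.mk.injEq] at h1
  obtain ⟨h1, h2⟩ := h1
  have h3 := bitEncode_injective (α := List Bool × List Bool) h1
  rw [Prod.mk.injEq] at h3
  have h4 := List.append_inj h3.2 (by simp)
  have h5 := bits_injective h2
  have h6 := List.ofFn_injective h4.1
  have h7 := List.ofFn_injective h4.2
  have h8 : i = i' := Fin.ext (by simpa using h5)
  simp only at h6 h7
  rw [h6, h7, h8]

/-- The machine reading planted strings. -/
def rd (S : Access) (D : List Bool → List Bool × List Bool) (X : List Bool → Bool)
    (y : (List Bool × List Bool) × List Bool) : Bool :=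
  if y.1.2 = (D y.1.1).1 then decide (y.2 = []) else decide (y.2 = [X (S.e (bitEncode y.1))])

theorem rd_UT (S : Access) {D : List Bool → List Bool × List Bool} (hD : PolyTime D) :
    UT (rd S D) := by
  unfold rd
  refine UT.ite (PolyTime.decide_eq (PolyTime.snd PolyTime.fst')
    (PolyTime.fst (hD.comp (PolyTime.fst PolyTime.fst')))) (UT.of (PolyTime.decide_eq
      PolyTime.snd' (PolyTime.const []))) ?_
  have h1 : UT (fun X (y : (List Bool × List Bool) × List Bool) => X (S.e (bitEncode y.1))) :=
    UT.query.pre (g := fun y : (List Bool × List Bool) × List Bool => S.e (bitEncode y.1))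
      (S.he.comp ((Compat.enc (α := List Bool × List Bool)).comp PolyTime.fst'))
  have h2 : UT (fun _ (y : (List Bool × List Bool) × List Bool) => y.2) :=
    UT.of PolyTime.snd'
  exact (h2.pair h1).post (g := fun z : List Bool × Bool => decide (z.1 = [z.2]))
    (PolyTime.decide_eq PolyTime.fst' (PolyTime.cons PolyTime.snd' (PolyTime.const [])))

theorem enc_list_length (l : List Bool) : (bitEncode l : List Bool).length = 3 * l.length := by
  change (((l.map bitEncode).map delimit).flatten).length = _
  induction l with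
  | nil => rfl
  | cons b l ih =>
    rw [List.map_cons, List.map_cons, List.flatten_cons, List.length_append, ih, length_delimit,
      List.length_cons]
    change 2 * 1 + 1 + _ = _
    ring

theorem enc_pair_length {α β : Type} [N487b59b3 α] [N487b59b3 β] (p : α × β) :
    (bitEncode p : List Bool).length = 2 * (bitEncode p.1 : List Bool).length + 1 +
      (bitEncode p.2 : List Bool).length := by
  change (delimit (bitEncode p.1) ++ bitEncode p.2).length = _
  rw [List.length_append, length_delimit]

theorem size_le_log (n : ℕ) : Nat.size (n + 1) ≤ Nat.log 2 n + 2 := by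
  rw [Nat.size_le]
  have h1 := Nat.lt_pow_succ_log_self (b := 2) (by norm_num) n
  rw [Nat.succ_eq_add_one] at h1
  have h2 := Nat.one_le_two_pow (n := Nat.log 2 n + 1)
  rw [pow_succ 2 (Nat.log 2 n + 1)]
  omega

theorem dsc_length (n : ℕ) (s : (Fin (ml n) → Bool) × (Fin (ml n) → Bool)) :
    (dsc n s).length ≤ 19 * (Nat.log 2 n + 1) ^ 2 := by
  unfold dsc
  rw [enc_pair_length, enc_list_length, enc_list_length]
  simp only [List.length_append, List.length_ofFn]
  rw [Nat.size_eq_bits_len]
  have h1 := size_le_log n
  unfold ml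
  nlinarith

/-- Planted strings have small complexity. -/
theorem planted_yes {U : Machine} (hU : IsUniversal U) (S : Access) (k : ℕ) :
    ∀ᶠ n : ℕ in atTop, ∀ (A R : List Bool → Bool)
      (s : (Fin (ml n) → Bool) × (Fin (ml n) → Bool)),
      Yes U k (mix S.c A R) (List.ofFn (pl (crdn n) R s)) := by
  obtain ⟨D, hD, hD'⟩ := Compat.dec (α := List Bool × List Bool)
  obtain ⟨M, hM⟩ := exists_machine (rd_UT S hD)
  obtain ⟨e, r, hU⟩ := hU M
  have hQ := poly_log_le ((Polynomial.C e.length + 19 * (Polynomial.X + 1) ^ 2 +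
    r.comp (19 * (Polynomial.X + 1) ^ 2 + Polynomial.X + 2)) ^ k)
  filter_upwards [hQ] with n hn A R s
  rw [Polynomial.eval_pow] at hn
  set X := mix S.c A R with hX
  set x := List.ofFn (pl (crdn n) R s) with hx
  have hxl : x.length = n := by rw [hx, List.length_ofFn]
  set T := r.eval ((dsc n s).length + Nat.size (n + 1)) with hT
  have hdes : Describes U X (e ++ dsc n s) T x := by
    intro i b hi1 hi2
    rw [hxl] at hi2
    obtain ⟨h1, h2⟩ := hU X (dsc n s) i b
    have h3 : U X (e ++ dsc n s) i b T ↔ M.run X ((dsc n s, Nat.bits i), letter b) = true := by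
      refine ⟨h1 T, fun h => h2 h T ?_⟩
      exact eval_mono r (Nat.add_le_add_left (Nat.size_le_size hi2) _)
    rw [h3, hM]
    have hD2 : (D (dsc n s)).1 = Nat.bits (n + 1) := by
      unfold dsc
      rw [hD']
    unfold rd
    by_cases hin : i = n + 1
    · subst hin
      rw [if_pos (by rw [hD2]), decide_eq_true_iff, Nat.add_sub_cancel,
        List.getElem?_eq_none (by omega)]
      cases b <;> simp [letter]
    · rw [if_neg (by rw [hD2]; exact fun h => hin (bits_injective h)), decide_eq_true_iff]
      have hlt : i - 1 < n := by omega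
      have h4 : x[i - 1]? = some (R (crdn n s ⟨i - 1, hlt⟩)) := by
        rw [List.getElem?_eq_getElem (by omega)]
        congr 1
        simp only [hx, List.getElem_ofFn]
        rfl
      have h5 : X (S.e (bitEncode (dsc n s, Nat.bits i))) = R (crdn n s ⟨i - 1, hlt⟩) := by
        rw [hX, S.mix_e]
        unfold crdn
        simp only
        rw [Nat.sub_add_cancel hi1]
      rw [h4]
      simp only
      rw [h5]
      cases b <;> simp [letter, eq_comm]
  have hKT : KT U X x ≤ (((e ++ dsc n s).length + T : ℕ) : ℕ∞) :=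
    iInf_le_of_le _ (iInf_le_of_le _ (iInf_le_of_le hdes le_rfl))
  unfold Yes
  refine (pow_le_pow_left' hKT k).trans ?_
  rw [hxl, ← Nat.cast_pow]
  refine Nat.cast_le.2 ?_
  refine le_trans (Nat.pow_le_pow_left ?_ k) hn
  simp only [Polynomial.eval_add, Polynomial.eval_C, Polynomial.eval_mul, Polynomial.eval_pow,
    Polynomial.eval_X, Polynomial.eval_one, Polynomial.eval_ofNat, Polynomial.eval_comp]
  have h1 := dsc_length n s
  have h2 := size_le_log n
  have h3 : T ≤ r.eval (19 * (Nat.log 2 n + 1) ^ 2 + Nat.log 2 n + 2) :=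
    eval_mono r (by omega)
  rw [List.length_append]
  omega

end Pool.Agent.KTR55
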