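import Pool.Agent.KTR55.Mach
import Pool.Agent.KTR55.Count
import Pool.Agent.KTR55.Plant
import Pool.Agent.TFR21.Ctb

/-!
# Gap-MCSP relative to a random oracle
-/

set_option autoImplicit false

namespace Pool.Agent.KTR55

open N68a2faeb N793a5b8e N487b59b3 Filter MeasureTheory
open Pool.Agent.PT Pool.Agent.TMB67 Pool.Agent.POpt67 Pool.Agent.POpt70 Pool.Agent.ROr14
open Pool.Agent.TFR21

/-! ### Bounds for the machines -/

theorem bound_turing (M : PolyMachine ((List Bool × List Bool) × List Bool))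
    (c : Polynomial ℕ) : ∃ PN PB : Polynomial ℕ, ∀ (n : ℕ) (x a r : List Bool), x.length = n →
      a.length ≤ c.eval n → r.length ≤ c.eval n →
      M.p.eval (bitEncode ((x, a), r)).length ≤ PN.eval n ∧
      ∀ b : List Bool, b.length ≤ PN.eval n → (M.q (((x, a), r), b)).length ≤ PB.eval n := by
  obtain ⟨ρ, hρ⟩ := (isPolyTime_iff.1 M.hq).pbdd
  refine ⟨M.p.comp (12 * Polynomial.X + 9 * c + 3),
    ρ.comp (4 * Polynomial.X + 8 * c + 4 * M.p.comp (12 * Polynomial.X + 9 * c + 3) + 7),
    fun n x a r hx ha hr => ⟨?_, fun b hb => ?_⟩⟩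
  · rw [Polynomial.eval_comp]
    refine eval_mono M.p ?_
    rw [enc_pair_length, enc_pair_length, enc_list_length, enc_list_length, enc_list_length]
    simp only [Polynomial.eval_add, Polynomial.eval_mul, Polynomial.eval_ofNat,
      Polynomial.eval_X]
    omega
  · rw [Polynomial.eval_comp]
    refine (length_le_sz _).trans ((hρ _).trans (eval_mono ρ ?_))
    rw [sz_prod, sz_prod, sz_prod]
    have h1 := sz_listBool x
    have h2 := sz_listBool a
    have h3 := sz_listBool r
    have h4 := sz_listBool b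
    simp only [Polynomial.eval_add, Polynomial.eval_mul, Polynomial.eval_ofNat,
      Polynomial.eval_X]
    omega

theorem bound_prover (M : PolyMachine ((List Bool × List Bool) × (List Bool × List Bool)))
    (c : Polynomial ℕ) : ∃ PN : Polynomial ℕ, ∀ (n : ℕ) (x a r u : List Bool), x.length = n →
      a.length ≤ c.eval n → r.length ≤ c.eval n → u.length ≤ c.eval n →
      M.p.eval (bitEncode ((x, a), (r, u))).length ≤ PN.eval n := by
  refine ⟨M.p.comp (12 * Polynomial.X + 15 * c + 4), fun n x a r u hx ha hr hu => ?_⟩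
  rw [Polynomial.eval_comp]
  refine eval_mono M.p ?_
  rw [enc_pair_length, enc_pair_length, enc_pair_length, enc_list_length, enc_list_length,
    enc_list_length, enc_list_length]
  simp only [Polynomial.eval_add, Polynomial.eval_mul, Polynomial.eval_ofNat,
    Polynomial.eval_X]
  omega

/-! ### Summation -/

theorem ae_eventually {E : ℕ → Set (List Bool → Bool)}
    (h : ∀ᶠ n in atTop, randomOracle (E n) ≤ (2⁻¹ : ENNReal) ^ n) :
    ∀ᵐ R ∂randomOracle, ∀ᶠ n in atTop, R ∉ E n := by
  obtain ⟨n0, h⟩ := eventually_atTop.1 h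
  have h1 : ∑' n, randomOracle (E (n + n0)) ≠ ⊤ := by
    refine ne_top_of_le_ne_top (b := ∑' n : ℕ, (2⁻¹ : ENNReal) ^ n) ?_
      (ENNReal.tsum_le_tsum fun n => (h (n + n0) (by omega)).trans ?_)
    · rw [ENNReal.tsum_geometric]
      norm_num
    · exact pow_le_pow_right_of_le_one' (by norm_num) (by omega)
  filter_upwards [ae_eventually_notMem h1] with R hR
  obtain ⟨m, hm⟩ := eventually_atTop.1 hR
  refine eventually_atTop.2 ⟨m + n0, fun n hn => ?_⟩
  have := hm (n - n0) (by omega)
  rwa [Nat.sub_add_cancel (by omega)] at this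

theorem arith_bound (c : Polynomial ℕ) : ∀ᶠ n : ℕ in atTop,
    (2 : ENNReal) ^ (c.eval n + 1) * (2 ^ ml n * (2⁻¹) ^ 2 ^ ml n) ≤ (2⁻¹) ^ n := by
  filter_upwards [poly_le_ml (c + 1 + Polynomial.X ^ 2 + Polynomial.X)] with n hn
  simp only [Polynomial.eval_add, Polynomial.eval_one, Polynomial.eval_pow,
    Polynomial.eval_X] at hn
  have h1 : ml n ≤ n ^ 2 := by
    unfold ml
    exact Nat.pow_le_pow_left (Nat.log_le_self 2 n) 2
  obtain ⟨j, hj⟩ : ∃ j, 2 ^ ml n = (c.eval n + 1 + ml n) + (n + j) :=
    ⟨2 ^ ml n - (c.eval n + 1 + ml n + n), by omega⟩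
  rw [hj, pow_add (2⁻¹ : ENNReal), ← mul_assoc, ← mul_assoc, ← pow_add, ← mul_pow,
    ENNReal.mul_inv_cancel (by norm_num) (by norm_num), one_pow, one_mul]
  exact pow_le_pow_right_of_le_one' (by norm_num) (by omega)

/-- From single advice strings to all. -/
theorem union_advice {E : ℕ → List Bool → Set (List Bool → Bool)} (c : Polynomial ℕ)
    (h : ∀ᶠ n in atTop, ∀ a : List Bool, a.length ≤ c.eval n →
      randomOracle (E n a) ≤ 2 ^ ml n * (2⁻¹) ^ 2 ^ ml n) :
    ∀ᵐ R ∂randomOracle, ∀ᶠ n in atTop, ¬ ∃ a : List Bool, a.length ≤ c.eval n ∧ R ∈ E n a := by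
  refine ae_eventually (E := fun n => {R | ∃ a : List Bool, a.length ≤ c.eval n ∧ R ∈ E n a}) ?_
  filter_upwards [h, arith_bound c] with n h1 h2
  have hsub : {R | ∃ a : List Bool, a.length ≤ c.eval n ∧ R ∈ E n a} ⊆
      ⋃ a ∈ strs (c.eval n + 1), E n a := by
    rintro R ⟨a, ha, hR⟩
    simp only [Set.mem_iUnion]
    exact ⟨a, mem_strs.2 (by omega), hR⟩
  refine (measure_mono hsub).trans ((measure_biUnion_finset_le _ _).trans ?_)
  refine (Finset.sum_le_sum fun a ha => h1 a (by rw [mem_strs] at ha; omega)).trans ?_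
  rw [Finset.sum_const, nsmul_eq_mul]
  refine le_trans (mul_le_mul_left ?_ _) h2
  have h3 : (((strs (c.eval n + 1)).card : ℕ) : ENNReal) ≤ ((2 ^ (c.eval n + 1) : ℕ) : ENNReal) :=
    Nat.cast_le.2 (card_strs _)
  rwa [Nat.cast_pow] at h3

/-- The core at length `n`, for the planted strings. -/
theorem core_crdn {n : ℕ} (Bad : (List Bool → Bool) → (Fin n → Bool) → Prop) {T : ℕ} {S : ℝ}
    (hn : 1 ≤ n) (hS : 4 * S ≤ T) (hT : T ≤ 2 ^ ml n) :
    randomOracle {X | (∃ B : Finset (Fin n → Bool), 4 * B.card ≤ 2 ^ n ∧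
      ∀ x ∉ B, Light (fun X' => ¬ Bad X' x) S X) ∧ ∀ s, Bad X (pl (crdn n) X s)} ≤
    2 ^ ml n * (2⁻¹) ^ 2 ^ ml n := by
  have hc : Fintype.card (Fin (ml n) → Bool) = 2 ^ ml n := by simp
  have h := core (crdn_injective n) Bad (S := S) hn (by
    rw [hc]
    refine hS.trans ?_
    exact_mod_cast hT)
  rw [hc] at h
  push_cast at h
  exact h

/-! ### Turing reductions -/

theorem turing_ae {U : Machine} (hU : IsUniversal U) (S : Access) (A : List Bool → Bool) (k : ℕ)
    (M : PolyMachine ((List Bool × List Bool) × List Bool)) (c : Polynomial ℕ) :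
    ∀ᵐ R ∂randomOracle, ∀ᶠ n in atTop, ¬ TuringReducibleAt U k (mix S.c A R) M c n := by
  obtain ⟨PN, PB, hP⟩ := bound_turing M c
  refine union_advice (E := fun n a => {R | ∀ B, SolvesSD (mix S.c A R) B →
    Decides U k (mix S.c A R) (join B (mix S.c A R)) M a (c.eval n) n}) c ?_
  filter_upwards [planted_yes hU S k, half_growth, eventually_ge_atTop 1,
    poly_le_ml (4 * (3 * (PN * (12 * PB + 1))))] with n h1 h2 h3 h4 a ha
  refine le_trans (measure_mono ?_) (core_crdn (n := n) (fun R x => ∀ B,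
    SolvesSD (mix S.c A R) B → 2 / 3 ≤ accProb M (join B (mix S.c A R)) (List.ofFn x) a
      (c.eval n)) (S := 3 * ((PN.eval n : ℕ) * (12 * (PB.eval n : ℕ) + 1))) h3 ?_ h4)
  · intro R hR
    refine ⟨?_, fun s B hB => ?_⟩
    · obtain ⟨Ex, hEx, hno⟩ := card_not_no U (mix S.c A R) n
      refine ⟨Ex, by omega, fun x hx => ?_⟩
      have h5 : Light (fun X' => ¬ ∀ B, SolvesSD X' B →
          2 / 3 ≤ accProb M (join B X') (List.ofFn x) a (c.eval n))
          (3 * ((PN.eval n : ℕ) * (12 * (PB.eval n : ℕ) + 1))) (mix S.c A R) := by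
        refine light_accProb (fun B hB => ?_) (fun r hr => ?_) fun r b hr hb => ?_
        · exact (hR B hB (List.ofFn x) (by simp)).2 (hno x hx)
        · exact (hP n (List.ofFn x) a r (by simp) ha hr).1
        · exact (hP n (List.ofFn x) a r (by simp) ha hr).2 b hb
      exact light_mix h5
    · exact (hR B hB (List.ofFn (pl (crdn n) R s)) (by simp)).1 (h1 A R s)
  · simp only [Polynomial.eval_add, Polynomial.eval_mul, Polynomial.eval_ofNat,
      Polynomial.eval_one]
    push_cast
    exact le_rfl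

/-! ### Interactive proofs -/

theorem prover_ae {U : Machine} (hU : IsUniversal U) (S : Access) (A : List Bool → Bool) (k : ℕ)
    (M : PolyMachine ((List Bool × List Bool) × (List Bool × List Bool))) (c : Polynomial ℕ) :
    ∀ᵐ R ∂randomOracle, ∀ᶠ n in atTop, ¬ ProvableAt U k (mix S.c A R) M c n := by
  obtain ⟨PN, hP⟩ := bound_prover M c
  refine union_advice (E := fun n a => {R | ∀ x : List Bool, x.length = n →
    (No U (mix S.c A R) x → ∃ P, 2 / 3 ≤ winProb M (mix S.c A R) x a (c.eval n) P) ∧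
    (Yes U k (mix S.c A R) x → ∀ P, winProb M (mix S.c A R) x a (c.eval n) P ≤ 1 / 3)}) c ?_
  filter_upwards [planted_yes hU S k, half_growth, eventually_ge_atTop 1,
    poly_le_ml (4 * (3 * ((c + 1) * PN)))] with n h1 h2 h3 h4 a ha
  refine le_trans (measure_mono ?_) (core_crdn (n := n) (fun R x => ∀ P,
    winProb M (mix S.c A R) (List.ofFn x) a (c.eval n) P ≤ 1 / 3)
      (S := 3 * (((c.eval n : ℕ) + 1) * (PN.eval n : ℕ))) h3 ?_ h4)
  · intro R hR
    refine ⟨?_, fun s => ?_⟩
    · obtain ⟨Ex, hEx, hno⟩ := card_not_no U (mix S.c A R) n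
      refine ⟨Ex, by omega, fun x hx => ?_⟩
      have h5 : Light (fun X' => ¬ ∀ P, winProb M X' (List.ofFn x) a (c.eval n) P ≤ 1 / 3)
          (3 * (((c.eval n : ℕ) + 1) * (PN.eval n : ℕ))) (mix S.c A R) := by
        refine light_winProb ?_ fun r u hr hu => ?_
        · exact (hR (List.ofFn x) (by simp)).1 (hno x hx)
        · exact hP n (List.ofFn x) a r u (by simp) ha hr hu
      exact light_mix h5
    · exact (hR (List.ofFn (pl (crdn n) R s)) (by simp)).2 (h1 A R s)
  · simp only [Polynomial.eval_add, Polynomial.eval_mul, Polynomial.eval_ofNat,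
      Polynomial.eval_one]
    push_cast
    exact le_rfl

/-! ### All machines at once -/

theorem countable_machine {α : Type} [N487b59b3 α] [Enc α] [Compat α] :
    Countable (PolyMachine α) := by
  have h1 : Countable {f : α × List Bool → List Bool | IsPolyTime f} :=
    countable_isPoly.to_subtype
  have h2 : Countable {f : α × List Bool → Bool | IsPolyTime f} :=
    countable_isPoly.to_subtype
  have h3 := countable_natPoly
  let Φ : PolyMachine α → Polynomial ℕ × ({f : α × List Bool → List Bool | IsPolyTime f} ×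
    {f : α × List Bool → Bool | IsPolyTime f}) := fun M => (M.p, ⟨M.q, M.hq⟩, ⟨M.g, M.hg⟩)
  have hΦ : Function.Injective Φ := by
    intro M M' h
    obtain ⟨r, q, g, _, _⟩ := M
    obtain ⟨r', q', g', _, _⟩ := M'
    simp only [Φ, Prod.mk.injEq, Subtype.mk.injEq] at h
    obtain ⟨rfl, rfl, rfl⟩ := h
    rfl
  exact hΦ.countable

/-! ### Many-one reductions -/

theorem answers_true (O : List Bool → Bool) {α : Type} (q : α × List Bool → List Bool) (x : α)
    (m : ℕ) : answers O (fun y => true :: q y) x m = answers (fun z => O (true :: z)) q x m := by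
  induction m with
  | zero => rfl
  | succ m ih => rw [answers, answers, ih]

theorem UT_true {α β : Type} [Enc α] [Enc β] {F : (List Bool → Bool) → α → β} (hF : UT F) :
    UT (fun O x => F (fun z => O (true :: z)) x) := by
  obtain ⟨p, q, g, hq, hg, hF⟩ := hF
  refine ⟨p, fun y => true :: q y, g, PolyTime.cons (PolyTime.const true) hq, hg,
    fun X x m hm => ?_⟩
  rw [answers_true]
  exact hF _ x m hm

theorem many_one {U : Machine} {k : ℕ} {X : List Bool → Bool} (h : ManyOneReducible U k X) :
    ∃ (M : PolyMachine ((List Bool × List Bool) × List Bool)) (c : Polynomial ℕ),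
      ∀ n, TuringReducibleAt U k X M c n := by
  obtain ⟨f, hf, hred⟩ := h
  obtain ⟨F, hF, hFX⟩ := hf.exists_UT
  have h1 : UT (fun (O : List Bool → Bool) (y : (List Bool × List Bool) × List Bool) =>
      false :: F (fun z => O (true :: z)) y.1.1) :=
    ((UT_true hF).pre (g := fun y : (List Bool × List Bool) × List Bool => y.1.1)
      (PolyTime.fst PolyTime.fst')).post (g := fun w => false :: w)
      (PolyTime.cons (PolyTime.const false) PolyTime.id)
  obtain ⟨M, hM⟩ := exists_machine (UT.query.comp h1)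
  refine ⟨M, 0, fun n => ⟨[], by simp, fun A hA x hx => ?_⟩⟩
  have h2 : ∀ a r : List Bool, M.run (join A X) ((x, a), r) = A (f x) := by
    intro a r
    rw [hM]
    have h3 : (fun z => join A X (true :: z)) = X := rfl
    show A (F (fun z => join A X (true :: z)) x) = A (f x)
    rw [h3, hFX]
  unfold accProb
  simp only [h2]
  constructor
  · intro hy
    obtain ⟨C, D, h3, h4⟩ := (hred x).1 hy
    rw [h3, (hA C D).1 h4]
    simp
    norm_num
  · intro hno
    obtain ⟨C, D, h3, h4⟩ := (hred x).2 hno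
    rw [h3, (hA C D).2 h4]
    simp

/-- Gap-MCSP relative to an oracle which gives access to a random oracle. -/
theorem main {U : Machine} (hU : IsUniversal U) (S : Access) (A : List Bool → Bool) (k : ℕ) :
    ∀ᵐ R ∂randomOracle, Separated U k (mix S.c A R) := by
  have hc1 : Countable (PolyMachine ((List Bool × List Bool) × List Bool)) := countable_machine
  have hc2 : Countable (PolyMachine ((List Bool × List Bool) × (List Bool × List Bool))) :=
    countable_machine
  have hc3 := countable_natPoly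
  have h1 : ∀ᵐ R ∂randomOracle, ∀ (M : PolyMachine ((List Bool × List Bool) × List Bool))
      (c : Polynomial ℕ), ∀ᶠ n in atTop, ¬ TuringReducibleAt U k (mix S.c A R) M c n := by
    rw [ae_all_iff]
    intro M
    rw [ae_all_iff]
    intro c
    exact turing_ae hU S A k M c
  have h2 : ∀ᵐ R ∂randomOracle,
      ∀ (M : PolyMachine ((List Bool × List Bool) × (List Bool × List Bool)))
      (c : Polynomial ℕ), ∀ᶠ n in atTop, ¬ ProvableAt U k (mix S.c A R) M c n := by
    rw [ae_all_iff]
    intro M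
    rw [ae_all_iff]
    intro c
    exact prover_ae hU S A k M c
  filter_upwards [h1, h2] with R h1 h2
  refine ⟨fun hm => ?_, h1, h2⟩
  obtain ⟨M, c, h⟩ := many_one hm
  obtain ⟨n, hn⟩ := (h1 M c).exists
  exact hn (h n)

end Pool.Agent.KTR55
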